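import Pool.Agent.N181.P8.Main
import Pool.Agent.X243.Gen.PullT2

/-!
Points of `y² = x (x² + a x + b)`: additivity of the classes modulo squares, complete first descents.
-/

set_option autoImplicit false
set_option linter.all false

open Polynomial IsDedekindDomain WeierstrassCurve WeierstrassCurve.Affine
open scoped Classical

namespace Pool.Agent.N181.P9

open Pool.Agent.TH115.GD
open Pool.Agent.W309.TD (compare)
open Pool.Agent.X243.Tate (nonsT)


section add

variable {K : Type} [Field K] {a b : K}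

theorem dT_add (h2 : (2 : K) ≠ 0) (hb : b ≠ 0) (hd : a ^ 2 - 4 * b ≠ 0)
    (P P' : Pt (crvT a b) K) : ∃ u : K, u ≠ 0 ∧ dT b (P + P') = u ^ 2 * (dT b P * dT b P') := by
  haveI : IsGalois K (Sep K) := inferInstance
  obtain ⟨α, β, hR⟩ := exists_roots (Ω := Sep K) h2 hb hd
  obtain ⟨H, hH⟩ := halve_sep hR.E (act (crvT a b) (incl K K (Sep K)) P)
  obtain ⟨H', hH'⟩ := halve_sep hR.E (act (crvT a b) (incl K K (Sep K)) P')
  have f1 : ∀ σ : Sep K ≃ₐ[K] Sep K, act (crvT a b) (rs K σ) (H + H) = H + H := fun σ => by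
    rw [hH]; exact rs_act_incl (crvT a b) σ P
  have f2 : ∀ σ : Sep K ≃ₐ[K] Sep K, act (crvT a b) (rs K σ) (H' + H') = H' + H' := fun σ => by
    rw [hH']; exact rs_act_incl (crvT a b) σ P'
  have hHH : (H + H') + (H + H') = act (crvT a b) (incl K K (Sep K)) (P + P') := by
    rw [add_add_add_comm, hH, hH', map_add]
  have f3 : ∀ σ : Sep K ≃ₐ[K] Sep K,
      act (crvT a b) (rs K σ) ((H + H') + (H + H')) = (H + H') + (H + H') :=
    fun σ => by rw [hHH]; exact rs_act_incl (crvT a b) σ _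
  have split : ∀ σ : Sep K ≃ₐ[K] Sep K, act (crvT a b) (rs K σ) (H + H') - (H + H') =
      (act (crvT a b) (rs K σ) H - H) + (act (crvT a b) (rs K σ) H' - H') := by
    intro σ; rw [map_add]; abel
  obtain ⟨u0, hu0, q0⟩ := compare (K := K) (h0_ne hR.E (H + H'))
    (mul_ne_zero (h0_ne hR.E H) (h0_ne hR.E H'))
    (fun σ => s0 (act (crvT a b) (rs K σ) (H + H') - (H + H')))
    (fun σ => s0_ne _) (fun σ => (sign0 hR f3 σ).2) (fun σ => by
      rw [map_mul, (sign0 hR f1 σ).2, (sign0 hR f2 σ).2, split,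
        (s_addA hR.E (sign0 hR f1 σ).1 (sign0 hR f2 σ).1).1]
      ring)
  have inj := (algebraMap K (Sep K)).injective
  refine ⟨u0, hu0, ?_⟩
  apply inj
  have e := congrArg (fun x => x ^ 2) q0
  simp only [mul_pow, h0_sq hR.E, hHH, hH, hH', hR.d0_eq] at e
  have hact : ∀ Q : Pt (crvT a b) K, dT (algebraMap K (Sep K) b)
      (act (crvT a b) (incl K K (Sep K)) Q) = algebraMap K (Sep K) (dT b Q) := fun Q =>
    dT_act (crvT a b) (incl K K (Sep K)) b Q
  rw [hact, hact, hact] at e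
  rw [map_mul, map_pow, map_mul]
  exact e

theorem dT_ne (hb : b ≠ 0) (P : Pt (crvT a b) K) : dT b P ≠ 0 := by
  cases P with
  | zero => exact one_ne_zero
  | some x y hn =>
    show (if x = 0 then b else x) ≠ 0
    by_cases h : x = 0
    · rw [if_pos h]; exact hb
    · rw [if_neg h]; exact h

end add

section rep

variable (k : Type) [Field k] {K : Type} [Field K] [Algebra k[X] K] (a b : K)

/-- The element `x` of `k(s)` is the class of a point up to constants and squares. -/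
def Rep2 (x : K) : Prop :=
  ∃ (P : Pt (crvT a b) K) (c : k) (h : K), c ≠ 0 ∧ h ≠ 0 ∧
    algebraMap k[X] K (C c) * x = h ^ 2 * dT b P

variable {k a b}

theorem Rep2.const {u : k} (hu : u ≠ 0) : Rep2 k a b (algebraMap k[X] K (C u)) := by
  refine ⟨0, u⁻¹, 1, inv_ne_zero hu, one_ne_zero, ?_⟩
  rw [← map_mul, ← C_mul, inv_mul_cancel₀ hu, C_1, map_one]
  show (1 : K) = 1 ^ 2 * 1
  ring

theorem Rep2.one : Rep2 k a b (1 : K) := by
  refine ⟨0, 1, 1, one_ne_zero, one_ne_zero, ?_⟩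
  rw [C_1, map_one]
  show (1 : K) * 1 = 1 ^ 2 * 1
  ring

theorem Rep2.mul (h2 : (2 : K) ≠ 0) (hb : b ≠ 0) (hd : a ^ 2 - 4 * b ≠ 0) {x y : K}
    (hx : Rep2 k a b x) (hy : Rep2 k a b y) : Rep2 k a b (x * y) := by
  obtain ⟨P, c, h, hc, hh, e⟩ := hx
  obtain ⟨P', c', h', hc', hh', e'⟩ := hy
  obtain ⟨u, hu, q⟩ := dT_add h2 hb hd P P'
  refine ⟨P + P', c * c', h * h' * u⁻¹, mul_ne_zero hc hc',
    mul_ne_zero (mul_ne_zero hh hh') (inv_ne_zero hu), ?_⟩
  rw [C_mul, map_mul, q]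
  calc _ = (algebraMap k[X] K (C c) * x) * (algebraMap k[X] K (C c') * y) := by ring
    _ = _ := by
      rw [e, e']
      field_simp

theorem Rep2.sq {x z : K} (hz : z ≠ 0) (hx : Rep2 k a b x) : Rep2 k a b (z ^ 2 * x) := by
  obtain ⟨P, c, h, hc, hh, e⟩ := hx
  refine ⟨P, c, z * h, hc, mul_ne_zero hz hh, ?_⟩
  rw [mul_pow]
  linear_combination z ^ 2 * e

theorem Rep2.of_sq {x z : K} (hz : z ≠ 0) (hx : Rep2 k a b (z ^ 2 * x)) : Rep2 k a b x := by
  have h := hx.sq (inv_ne_zero hz)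
  have e : z⁻¹ ^ 2 * (z ^ 2 * x) = x := by
    field_simp
  rwa [e] at h

theorem Rep2.pt {x y : K} (h2 : (2 : K) ≠ 0) (hb : b ≠ 0) (hd : a ^ 2 - 4 * b ≠ 0) (hx : x ≠ 0)
    (h : y ^ 2 = x * (x ^ 2 + a * x + b)) : Rep2 k a b x := by
  have hn : ((crvT a b).baseChange K).toAffine.Nonsingular x y := nonsT h2 hb hd h
  refine ⟨Point.some x y hn, 1, 1, one_ne_zero, one_ne_zero, ?_⟩
  rw [C_1, map_one]
  show 1 * x = 1 ^ 2 * (if x = 0 then b else x)
  rw [if_neg hx]
  ring

theorem Rep2.ofb (h2 : (2 : K) ≠ 0) (hb : b ≠ 0) (hd : a ^ 2 - 4 * b ≠ 0) : Rep2 k a b b := by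
  have hn : ((crvT a b).baseChange K).toAffine.Nonsingular 0 0 := nonsT h2 hb hd (by ring)
  refine ⟨Point.some 0 0 hn, 1, 1, one_ne_zero, one_ne_zero, ?_⟩
  rw [C_1, map_one]
  show 1 * b = 1 ^ 2 * (if (0 : K) = 0 then b else 0)
  rw [if_pos rfl]
  ring

end rep

section comp

/-- The first descent on `y² = x (x² + a x + b)` is complete (`2 m` is a bound for the degree of `a`, and
`4 m` for the degree of `b`): every polynomial `A` whose irreducible factors divide `b`, and whose degree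
is even if the degree of `b` is `4 m`, is the class of a point up to constants and squares. -/
def Comp2 {k : Type} [Field k] (K : Type) [Field K] [Algebra k[X] K] (m : ℕ) (a b : k[X]) : Prop :=
  ∀ A : k[X], A ≠ 0 → (∀ π : k[X], Irreducible π → π ∣ A → π ∣ b) →
    (b.natDegree = 4 * m → 2 ∣ A.natDegree) →
    ∃ (P : Pt (crvT (algebraMap k[X] K a) (algebraMap k[X] K b)) K) (c : k) (h : K), c ≠ 0 ∧
      h ≠ 0 ∧ algebraMap k[X] K (C c * A) = h ^ 2 * dT (algebraMap k[X] K b) P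

variable {k : Type} [Field k] {K : Type} [Field K] [Algebra k[X] K] [IsFractionRing k[X] K]
  {m : ℕ} {a b : k[X]}

theorem ne2 (h2 : (2 : k) ≠ 0) (hb : b ≠ 0) (hd : a ^ 2 - 4 * b ≠ 0) : (2 : K) ≠ 0 ∧
    algebraMap k[X] K b ≠ 0 ∧ algebraMap k[X] K a ^ 2 - 4 * algebraMap k[X] K b ≠ 0 := by
  have inj := IsFractionRing.injective k[X] K
  refine ⟨?_, ?_, ?_⟩
  · have h3 : algebraMap k[X] K (C 2) ≠ 0 := by simpa using h2
    rwa [C_ofNat, map_ofNat] at h3
  · rw [Ne, map_eq_zero_iff _ inj]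
    exact hb
  · have e : algebraMap k[X] K a ^ 2 - 4 * algebraMap k[X] K b =
        algebraMap k[X] K (a ^ 2 - 4 * b) := by
      rw [map_sub, map_mul, map_pow, map_ofNat]
    rw [e, Ne, map_eq_zero_iff _ inj]
    exact hd

/-- A criterion for complete first descents. -/
theorem comp_of2 (h2 : (2 : k) ≠ 0) (hb : b ≠ 0) (hd : a ^ 2 - 4 * b ≠ 0) (hs : b.Splits) {g : K}
    (hg : g ≠ 0) (hcase : g = 1 ∨ b.natDegree = 4 * m)
    (hroots : ∀ ξ, b.IsRoot ξ → Rep2 k (algebraMap k[X] K a) (algebraMap k[X] K b)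
      (algebraMap k[X] K (X - C ξ) * g)) : Comp2 K m a b := by
  obtain ⟨n1, n2, n3⟩ := ne2 (K := K) h2 hb hd
  have key : ∀ A : k[X], A ≠ 0 → (∀ π : k[X], Irreducible π → π ∣ A → π ∣ b) →
      Rep2 k (algebraMap k[X] K a) (algebraMap k[X] K b)
        (algebraMap k[X] K A * g ^ A.natDegree) := by
    intro A
    refine WfDvdMonoid.induction_on_irreducible A ?_ ?_ ?_
    · intro h
      exact absurd rfl h
    · intro u hu _ _
      obtain ⟨c, hc, rfl⟩ := Polynomial.isUnit_iff.1 hu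
      rw [natDegree_C, pow_zero, mul_one]
      exact Rep2.const hc.ne_zero
    · intro A' p hA' hp ih _ hd
      have h4 := ih hA' fun π h1 h2 => hd π h1 (h2.mul_left _)
      obtain ⟨ξ, hξ, h5⟩ : ∃ ξ, b.IsRoot ξ ∧ Associated p (X - C ξ) := by
        have h6 := hd p hp (dvd_mul_right _ _)
        obtain ⟨ξ, hξ⟩ := exists_root_of_degree_eq_one
          ((hs.of_dvd hb h6).degree_eq_one_of_irreducible hp)
        refine ⟨ξ, hξ.dvd h6, ?_⟩
        exact ((irreducible_X_sub_C ξ).associated_of_dvd hp (dvd_iff_isRoot.2 hξ)).symm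
      obtain ⟨x, hx⟩ := h5.symm
      obtain ⟨u, hu, hux⟩ := Polynomial.isUnit_iff.1 x.isUnit
      have e : p = C u * (X - C ξ) := by rw [← hx, ← hux, mul_comm]
      have e1 : p.natDegree = 1 := by
        rw [e, natDegree_C_mul hu.ne_zero, natDegree_X_sub_C]
      have e2 : algebraMap k[X] K (p * A') * g ^ (p * A').natDegree =
          algebraMap k[X] K (C u) * ((algebraMap k[X] K (X - C ξ) * g) *
            (algebraMap k[X] K A' * g ^ A'.natDegree)) := by
        rw [natDegree_mul hp.ne_zero hA', e1, pow_add, pow_one, map_mul, e, map_mul]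
        ring
      rw [e2]
      exact (Rep2.const hu.ne_zero).mul n1 n2 n3 ((hroots ξ hξ).mul n1 n2 n3 h4)
  intro A hA hAd hdeg
  have h1 := key A hA hAd
  have h2 : Rep2 k (algebraMap k[X] K a) (algebraMap k[X] K b) (algebraMap k[X] K A) := by
    rcases hcase with h | h
    · rwa [h, one_pow, mul_one] at h1
    · obtain ⟨j, hj⟩ := hdeg h
      apply Rep2.of_sq (pow_ne_zero j hg)
      rw [hj] at h1
      have e : (g ^ j) ^ 2 * algebraMap k[X] K A = algebraMap k[X] K A * g ^ (2 * j) := by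
        rw [← pow_mul, mul_comm j 2, mul_comm]
      rw [e]
      exact h1
  obtain ⟨P, c, h, hc, hh, e⟩ := h2
  exact ⟨P, c, h, hc, hh, by rw [map_mul]; exact e⟩

end comp

end Pool.Agent.N181.P9
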