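import Pool.Agent.N181.P9.Fac

/-!
The Tate conjecture at 2 for pullbacks with exactly one point above each point of bad reduction.
-/

set_option autoImplicit false
set_option linter.all false

open Polynomial IsDedekindDomain WeierstrassCurve WeierstrassCurve.Affine
open scoped Classical

namespace Pool.Agent.N181.P9

open Pool.Agent.N181.P3 (hb hb_map hb_sum hb_psi natDegree_hb_le rm_C_mul)
open Pool.Agent.N181.P8 (natDegree_pb')
open Pool.Agent.N181.T3 (TateAt IsTCL IsInvL IsTML)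
open Pool.Agent.X243.Gen (pb pb_sum pb_mul pb_C pb_one pb_pow pb_lin pb_map pb_frac pb_ne exists_psi
  natDegree_pb root_of_prime form_cop pt_pullT mainTI CompleteT enoughTI_of_complete InfT EnoughTI)
open Pool.Agent.X243.Tate (notNorm_of_factor)
open Pool.Agent.TH115.GD

/-- The base: an elliptic curve `y² = x (x² + a x + b)` over `k(s)`, `a`, `b` polynomials of degrees at
most `2 m` and `4 m`, with complete first descents, all of whose finite places of bad reduction are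
rational. -/
structure Base2 {k : Type} [Field k] (K₀ : Type) [Field K₀] [Algebra k[X] K₀] (m : ℕ) (a b : k[X]) :
    Prop where
  two : (2 : k) ≠ 0
  da : a.natDegree ≤ 2 * m
  db : b.natDegree ≤ 4 * m
  hb : b ≠ 0
  hd : a ^ 2 - 4 * b ≠ 0
  sb : b.Splits
  sd : (a ^ 2 - 4 * b).Splits
  ob : ∃ ξ : k, ¬ 2 ∣ b.rootMultiplicity ξ
  od : ∃ ξ : k, ¬ 2 ∣ (a ^ 2 - 4 * b).rootMultiplicity ξ
  c1 : Comp2 K₀ m a b
  c2 : Comp2 K₀ m (-2 * a) (a ^ 2 - 4 * b)

section

variable {k K₀ : Type} [Field k] [Field K₀] [Algebra k[X] K₀] {m : ℕ} {a b : k[X]}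

theorem dd_deg (da : a.natDegree ≤ 2 * m) (db : b.natDegree ≤ 4 * m) :
    (a ^ 2 - 4 * b).natDegree ≤ 4 * m := by
  refine (natDegree_sub_le _ _).trans (max_le ?_ ?_)
  · refine natDegree_pow_le.trans ((Nat.mul_le_mul_left 2 da).trans ?_)
    omega
  · have e4 : (4 : k[X]) = C 4 := rfl
    rw [e4]
    exact (natDegree_C_mul_le _ _).trans db

theorem Base2.dd (hB : Base2 K₀ m a b) : (a ^ 2 - 4 * b).natDegree ≤ 4 * m := dd_deg hB.da hB.db

theorem two_a : (-2 * a).natDegree ≤ a.natDegree := by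
  have e4 : (-2 : k[X]) = C (-2) := by rw [C_neg, C_ofNat]
  rw [e4]
  exact natDegree_C_mul_le _ _

theorem dual_disc2 : (-2 * a) ^ 2 - 4 * (a ^ 2 - 4 * b) = C 16 * b := by
  have e : (C 16 : k[X]) = 16 := rfl
  rw [e]
  ring

end

section

variable {k L K₀ K : Type} [Field k] [Field L] [Field K₀] [Algebra k[X] K₀] [IsFractionRing k[X] K₀]
  (φ : k →+* L) {q r : L[X]} {m n : ℕ} {a b : k[X]}

/-- The discriminant of the pullback. -/
theorem disc_pull2 (hB : Base2 K₀ m a b) (hr0 : r ≠ 0) (hco : IsCoprime q r)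
    (hq : 0 < q.natDegree) :
    hb q r (2 * m) (a.map φ) ^ 2 - 4 * hb q r (4 * m) (b.map φ) =
      hb q r (4 * m) ((a ^ 2 - 4 * b).map φ) := by
  obtain ⟨ψ, hψ⟩ := exists_psi (K₀ := K₀) (K := FractionRing L[X]) φ (q := q) hr0 (fun g hg =>
    pb_ne hco hq ((Polynomial.map_ne_zero_iff φ.injective).2 hg))
  apply IsFractionRing.injective L[X] (FractionRing L[X])
  rw [map_sub, map_mul, map_pow, map_ofNat, hb_psi φ hψ hB.da, hb_psi φ hψ hB.db,
    hb_psi φ hψ hB.dd, map_sub, map_mul, map_pow, map_ofNat, map_sub, map_mul, map_pow, map_ofNat]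
  ring

theorem a_pull2 (hB : Base2 K₀ m a b) (hr0 : r ≠ 0) (hco : IsCoprime q r) (hq : 0 < q.natDegree) :
    -2 * hb q r (2 * m) (a.map φ) = hb q r (2 * m) ((-2 * a).map φ) := by
  obtain ⟨ψ, hψ⟩ := exists_psi (K₀ := K₀) (K := FractionRing L[X]) φ (q := q) hr0 (fun g hg =>
    pb_ne hco hq ((Polynomial.map_ne_zero_iff φ.injective).2 hg))
  apply IsFractionRing.injective L[X] (FractionRing L[X])
  rw [map_mul, map_neg, map_ofNat, hb_psi φ hψ hB.da, hb_psi φ hψ (two_a.trans hB.da), map_mul,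
    map_mul, map_neg, map_neg, map_ofNat, map_ofNat]
  ring

/-- The conditions on the fibres. -/
structure Fib2 (q r : L[X]) (m n : ℕ) (a b : k[X]) : Prop where
  co : IsCoprime q r
  qp : 0 < q.natDegree
  qn : q.natDegree ≤ n
  rn : r.natDegree ≤ n
  fb : ∀ ξ, (b * (a ^ 2 - 4 * b)).IsRoot ξ → PwO (q - C (φ ξ) * r) ∧
    (q - C (φ ξ) * r).natDegree = n
  rb : r = 1 ∨ (b.natDegree = 4 * m ∧ (a ^ 2 - 4 * b).natDegree = 4 * m) ∨
    (PwO r ∧ r.natDegree = n)

theorem Fib2.r0 {φ : k →+* L} (h : Fib2 φ q r m n a b) : r ≠ 0 := by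
  rintro rfl
  have := h.co
  rw [isCoprime_zero_right] at this
  have := natDegree_eq_zero_of_isUnit this
  have := h.qp
  omega

theorem Fib2.npos {φ : k →+* L} (h : Fib2 φ q r m n a b) : 0 < n := h.qp.trans_le h.qn

theorem odd_factor_pull (hco : IsCoprime q r) (hq : 0 < q.natDegree) (hr0 : r ≠ 0) {M : ℕ}
    {g : k[X]} (hg : g ≠ 0) (hs : g.Splits)
    (hirr : ∀ ξ, g.IsRoot ξ → PwO (q - C (φ ξ) * r)) {ξ : k}
    (hξ : ¬ 2 ∣ g.rootMultiplicity ξ) : HasOddFactor (hb q r M (g.map φ)) := by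
  obtain ⟨g', hg', hnd⟩ := exists_eq_pow_rootMultiplicity_mul_and_not_dvd g hg ξ
  have hroot : g.IsRoot ξ := by
    by_contra h
    apply hξ
    rw [rootMultiplicity_eq_zero h]
    exact dvd_zero 2
  have hg'0 : g' ≠ 0 := by
    rintro rfl
    rw [mul_zero] at hg'
    exact hg hg'
  obtain ⟨ρ, i, v, hv, hi, hρ, -, hρo, i1⟩ := hirr ξ hroot
  have e : hb q r M (g.map φ) = ρ ^ (i * g.rootMultiplicity ξ) *
      (C v ^ (g.rootMultiplicity ξ) * (r ^ (M - g.natDegree) * pb q r (g'.map φ))) := by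
    rw [hb, natDegree_map]
    conv_lhs => rw [hg']
    rw [Polynomial.map_mul, Polynomial.map_pow, Polynomial.map_sub, map_X, map_C, pb_mul,
      pb_pow, pb_lin, ← hg', i1, mul_pow, ← pow_mul]
    ring
  have hρd : ρ ∣ q - C (φ ξ) * r := by
    rw [i1]
    have h0 : i ≠ 0 := by
      rintro rfl
      exact hi (dvd_zero 2)
    exact (dvd_pow_self ρ h0).mul_left _
  have h3 : ¬ 2 ∣ i * g.rootMultiplicity ξ := by
    rw [Nat.Prime.dvd_mul Nat.prime_two]
    push Not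
    exact ⟨hi, hξ⟩
  obtain ⟨s, hs'⟩ : ∃ s, i * g.rootMultiplicity ξ = 2 * s + 1 :=
    ⟨(i * g.rootMultiplicity ξ) / 2, by omega⟩
  rw [e, hs']
  refine ⟨ρ, s, hρ, hρo, dvd_mul_right _ _, ?_⟩
  intro h6
  rw [pow_succ ρ (2 * s + 1)] at h6
  have h4 := (mul_dvd_mul_iff_left (pow_ne_zero (2 * s + 1) hρ.ne_zero)).1 h6
  have hvu : IsUnit ((C v : L[X]) ^ (g.rootMultiplicity ξ)) :=
    (isUnit_C.2 (isUnit_iff_ne_zero.2 hv)).pow _
  rcases hρ.prime.dvd_or_dvd (hvu.dvd_mul_left.1 h4) with h5 | h5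
  · have h6 := hρ.prime.dvd_of_dvd_pow h5
    have h7 : ρ ∣ q := by
      have := dvd_add hρd (h6.mul_left (C (φ ξ)))
      rwa [sub_add_cancel] at this
    exact hρ.not_isUnit (hco.isUnit_of_dvd' h7 h6)
  · obtain ⟨ξ', hξ', h6⟩ := root_of_prime φ hg'0 (hs.of_dvd hg ⟨_, by rw [mul_comm]; exact hg'⟩)
      hρ.prime h5
    have hne : ξ ≠ ξ' := by
      rintro rfl
      exact hnd (dvd_iff_isRoot.2 hξ')
    exact hρ.not_isUnit (form_cop φ hco hne hρd h6)

end

section conv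

variable {k' K F : Type} [Field k'] [Field K] [Field F] [Algebra K F] [Algebra k'[X] F]
  [IsFractionRing k'[X] F] {W : WeierstrassCurve K}

theorem tateAt_two (h : TateAtTwo (F := F) k' W) : TateAt (F := F) 2 k' W := by
  intro c hc hl hi n
  refine h c ⟨hc.coc, hc.zero, hc.mul⟩ hl ?_ n
  intro τ
  obtain ⟨m, Q, hQ, e⟩ := hi τ
  exact ⟨m, Q, ⟨hQ.zero, hQ.mul⟩, e⟩

end conv

section tate

variable {k K₀ : Type} [Field k] [Field K₀] [Algebra k[X] K₀] [IsFractionRing k[X] K₀]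
  {m n : ℕ} {a b : k[X]}
  {L L' K F : Type} [Field L] [Field L'] [Algebra L L'] [Field K] [Algebra L[X] K]
  [Field F] [Algebra L'[X] F] [IsFractionRing L'[X] F] [Algebra K F]

theorem tate_pull2 (hT : IsTower L L' K F) (hB : Base2 K₀ m a b) (φ : k →+* L) {q r : L[X]}
    (hF : Fib2 φ q r m n a b) (hpar : ¬ 2 ∣ n) :
    TateAt (F := F) 2 L' (crvT (algebraMap L[X] K (hb q r (2 * m) (a.map φ)))
      (algebraMap L[X] K (hb q r (4 * m) (b.map φ)))) := by
  haveI := hT.fracK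
  have hco := hF.co
  have hq := hF.qp
  have hr0 := hF.r0
  have hdisc := disc_pull2 φ hB hr0 hco hq
  have h2a := a_pull2 φ hB hr0 hco hq
  have h2L : (2 : L) ≠ 0 := by
    rw [← map_ofNat φ 2]
    exact (map_ne_zero_iff _ φ.injective).2 hB.two
  have hpb : ∀ g : k[X], g ≠ 0 → pb q r (g.map φ) ≠ 0 := fun g hg =>
    pb_ne hco hq ((Polynomial.map_ne_zero_iff φ.injective).2 hg)
  have hb0 : ∀ (M : ℕ) (g : k[X]), g ≠ 0 → hb q r M (g.map φ) ≠ 0 := fun M g hg =>
    mul_ne_zero (pow_ne_zero _ hr0) (hpb g hg)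
  have rb : ∀ ξ, b.IsRoot ξ → PwO (q - C (φ ξ) * r) ∧ (q - C (φ ξ) * r).natDegree = n := by
    intro ξ h
    exact hF.fb ξ (by rw [IsRoot.def, eval_mul, IsRoot.def.1 h, zero_mul])
  have rd : ∀ ξ, (a ^ 2 - 4 * b).IsRoot ξ → PwO (q - C (φ ξ) * r) ∧
      (q - C (φ ξ) * r).natDegree = n := by
    intro ξ h
    exact hF.fb ξ (by rw [IsRoot.def, eval_mul, IsRoot.def.1 h, mul_zero])
  obtain ⟨ψ, hψ⟩ := exists_psi (K₀ := K₀) (K := K) φ (q := q) hr0 (fun g hg =>
    pb_ne hco hq ((Polynomial.map_ne_zero_iff φ.injective).2 hg))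
  have ha' : (hb q r (2 * m) (a.map φ)).natDegree ≤ 2 * (n * m) := by
    refine (natDegree_hb_le hF.qn hF.rn (by rw [natDegree_map]; exact hB.da)).trans ?_
    exact le_of_eq (by ring)
  have hdd : (-2 * a) ^ 2 - 4 * (a ^ 2 - 4 * b) ≠ 0 := by
    rw [dual_disc2]
    have h16 : (16 : k) ≠ 0 := by
      have : (16 : k) = 2 ^ 4 := by norm_num
      rw [this]
      exact pow_ne_zero 4 hB.two
    exact mul_ne_zero (C_ne_zero.2 h16) hB.hb
  have ecK : algebraMap L[X] K (hb q r (2 * m) (a.map φ)) ^ 2 -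
      4 * algebraMap L[X] K (hb q r (4 * m) (b.map φ)) =
      algebraMap L[X] K (hb q r (4 * m) ((a ^ 2 - 4 * b).map φ)) := by
    rw [← hdisc, map_sub, map_mul, map_pow, map_ofNat]
  have key1 : CompleteT K (hb q r (2 * m) (a.map φ)) (hb q r (4 * m) (b.map φ)) := by
    intro A h1 h3 h4 h5
    obtain ⟨P, c, h, hc, hh, e⟩ := comp_pull2 (K₀ := K₀) (K := K) φ hB.two hB.da hB.db hB.hb
      hB.hd hB.sb hB.c1 hr0 hF.npos hψ rb
      (by
        rcases hF.rb with h | h | h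
        · exact Or.inl h
        · exact Or.inr (Or.inl h.1)
        · exact Or.inr (Or.inr h))
      hpar rfl rfl A h1.ne_zero (fun π h6 h7 => h7.trans h4)
      (fun h6 => (h5 (n * m) ha' h6).two_dvd)
    exact ⟨P, c, h, hc, hh, e⟩
  have key2 : CompleteT K (-2 * hb q r (2 * m) (a.map φ))
      (hb q r (2 * m) (a.map φ) ^ 2 - 4 * hb q r (4 * m) (b.map φ)) := by
    rw [hdisc, h2a]
    intro A h1 h3 h4 h5
    obtain ⟨P, c, h, hc, hh, e⟩ := comp_pull2 (K₀ := K₀) (K := K) φ hB.two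
      (two_a.trans hB.da) hB.dd hB.hd hdd hB.sd hB.c2 hr0 hF.npos hψ rd
      (by
        rcases hF.rb with h | h | h
        · exact Or.inl h
        · exact Or.inr (Or.inl h.2)
        · exact Or.inr (Or.inr h))
      hpar rfl rfl A h1.ne_zero (fun π h6 h7 => h7.trans h4)
      (fun h6 => (h5 (n * m) (by rw [← h2a]; exact two_a.trans ha') h6).two_dvd)
    exact ⟨P, c, h, hc, hh, e⟩
  -- the irreducible factors
  have hsep : ∀ π : L[X], Irreducible π → π ∣ hb q r (4 * m) (b.map φ) *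
      (hb q r (2 * m) (a.map φ) ^ 2 - 4 * hb q r (4 * m) (b.map φ)) → π.Separable := by
    intro π hπ hd
    rw [hdisc] at hd
    have hform : ∀ f : L[X], PwO f → π ∣ f → π.Separable := by
      rintro f ⟨ρ, e, u, hu, he, h1, h2, -, rfl⟩ h3
      have h4 : π ∣ ρ ^ e := (isUnit_C.2 (isUnit_iff_ne_zero.2 hu)).dvd_mul_left.1 h3
      exact h2.of_dvd (hπ.prime.dvd_of_dvd_pow h4)
    have hone : ∀ g : k[X], g ≠ 0 → g.Splits → (g.natDegree = 4 * m ∨ r = 1 ∨
        (PwO r ∧ r.natDegree = n)) → (∀ ξ, g.IsRoot ξ →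
          PwO (q - C (φ ξ) * r) ∧
          (q - C (φ ξ) * r).natDegree = n) → π ∣ hb q r (4 * m) (g.map φ) →
        π.Separable := by
      intro g hg hs hr hroots hdg
      rw [hb, natDegree_map] at hdg
      rcases hπ.prime.dvd_or_dvd hdg with h1 | h1
      · rcases hr with h2 | h2 | h2
        · rw [h2, Nat.sub_self, pow_zero] at h1
          exact absurd (isUnit_of_dvd_one h1) hπ.not_isUnit
        · rw [h2, one_pow] at h1
          exact absurd (isUnit_of_dvd_one h1) hπ.not_isUnit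
        · exact hform r h2.1 (hπ.prime.dvd_of_dvd_pow h1)
      · obtain ⟨ξ, hξ, h2⟩ := root_of_prime φ hg hs hπ.prime h1
        exact hform _ (hroots ξ hξ).1 h2
    rcases hπ.prime.dvd_or_dvd hd with h | h
    · refine hone b hB.hb hB.sb ?_ rb h
      rcases hF.rb with h1 | h1 | h1
      · exact Or.inr (Or.inl h1)
      · exact Or.inl h1.1
      · exact Or.inr (Or.inr h1)
    · refine hone _ hB.hd hB.sd ?_ rd h
      rcases hF.rb with h1 | h1 | h1
      · exact Or.inr (Or.inl h1)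
      · exact Or.inl h1.2
      · exact Or.inr (Or.inr h1)
  apply tateAt_two
  refine mainTI hT h2L (hb0 _ b hB.hb) (by rw [hdisc]; exact hb0 _ _ hB.hd) hsep ?_ ?_
    (enoughTI_of_complete hT h2L key1) (enoughTI_of_complete hT h2L key2)
  · obtain ⟨ξ, hξ⟩ := hB.ob
    exact notNorm_of_factor (odd_factor_pull φ hco hq hr0 hB.hb hB.sb (fun ξ h => (rb ξ h).1) hξ)
  · obtain ⟨ξ, hξ⟩ := hB.od
    rw [hdisc]
    exact notNorm_of_factor (odd_factor_pull φ hco hq hr0 hB.hd hB.sd (fun ξ h => (rd ξ h).1) hξ)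

end tate

end Pool.Agent.N181.P9
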