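import Pool.Agent.N181.P9.Base

/-!
Complete first descents for all the rational elliptic surfaces `y² = x (x² + a x + b)`.
-/

set_option autoImplicit false
set_option linter.all false

open Polynomial IsDedekindDomain WeierstrassCurve WeierstrassCurve.Affine
open scoped Classical

namespace Pool.Agent.N181.P9

open Pool.Agent.TH115.GD

section disc

variable {k : Type} [Field k]

/-- The discriminant of a polynomial of degree at most two. -/
def disc2 (u : k[X]) : k := u.coeff 1 ^ 2 - 4 * u.coeff 2 * u.coeff 0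

/-- A decomposition `b = u v`, `u` and `v` of degree at most two with nonzero discriminants. -/
def Dec (b : k[X]) (p : k[X] × k[X]) : Prop :=
  p.1 * p.2 = b ∧ p.1.natDegree ≤ 2 ∧ p.2.natDegree ≤ 2 ∧ disc2 p.1 ≠ 0 ∧ disc2 p.2 ≠ 0

/-- The decomposition `(u, v)` gives a point with `x = c u`. -/
def RepPoly (a : k[X]) (p : k[X] × k[X]) : Prop :=
  ∃ (c : k) (w : k[X]), c ≠ 0 ∧ C c * (C (c ^ 2) * p.1 + C c * a + p.2) = w ^ 2

theorem disc2_lin (x : k) : disc2 (X - C x) = 1 := by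
  unfold disc2
  have e : (X - C x : k[X]) = C 0 * X ^ 2 + C 1 * X + C (-x) := by
    simp [sub_eq_add_neg]
  rw [e]
  have h0 : (C (0 : k) * X ^ 2 + C 1 * X + C (-x)).coeff 1 = 1 := by
    simp [coeff_X, coeff_C]
  have h1 : (C (0 : k) * X ^ 2 + C 1 * X + C (-x)).coeff 2 = 0 := by
    simp [coeff_X, coeff_C]
  rw [h0, h1]
  ring

theorem disc2_two (x y : k) : disc2 ((X - C x) * (X - C y)) = (x - y) ^ 2 := by
  unfold disc2
  have e : ((X - C x) * (X - C y) : k[X]) = C 1 * X ^ 2 + C (-(x + y)) * X + C (x * y) := by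
    rw [C_neg, C_add, C_mul, C_1]; ring
  rw [e]
  have h0 : (C (1 : k) * X ^ 2 + C (-(x + y)) * X + C (x * y)).coeff 1 = -(x + y) := by
    simp [coeff_X, coeff_C]
  have h1 : (C (1 : k) * X ^ 2 + C (-(x + y)) * X + C (x * y)).coeff 2 = 1 := by
    simp [coeff_X, coeff_C]
  have h2 : (C (1 : k) * X ^ 2 + C (-(x + y)) * X + C (x * y)).coeff 0 = x * y := by
    simp [coeff_X, coeff_C]
  rw [h0, h1, h2]
  ring

theorem disc2_C_mul (κ : k) (u : k[X]) : disc2 (C κ * u) = κ ^ 2 * disc2 u := by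
  unfold disc2
  rw [coeff_C_mul, coeff_C_mul, coeff_C_mul]
  ring

theorem dec_of {κ : k} (hκ : κ ≠ 0) {u v : k[X]} (du : u.natDegree ≤ 2) (dv : v.natDegree ≤ 2)
    (hu : disc2 u ≠ 0) (hv : disc2 v ≠ 0) {b : k[X]} (e : b = C κ * (u * v)) :
    Dec b (u, C κ * v) := by
  refine ⟨?_, du, (natDegree_C_mul_le _ _).trans dv, hu, ?_⟩
  · show u * (C κ * v) = b
    rw [e]; ring
  · show disc2 (C κ * v) ≠ 0
    rw [disc2_C_mul]
    exact mul_ne_zero (pow_ne_zero 2 hκ) hv

theorem RepPoly.map {k₂ : Type} [Field k₂] (φ : k →+* k₂) {a : k[X]} {p : k[X] × k[X]}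
    (h : RepPoly a p) : RepPoly (a.map φ) (p.1.map φ, p.2.map φ) := by
  obtain ⟨c, w, hc, e⟩ := h
  refine ⟨φ c, w.map φ, (map_ne_zero_iff _ φ.injective).2 hc, ?_⟩
  have := congrArg (Polynomial.map φ) e
  simp only [Polynomial.map_mul, Polynomial.map_add, Polynomial.map_pow, map_C, map_pow] at this
  rw [map_pow]
  exact this

end disc

section comp

variable {k : Type} [Field k] {K : Type} [Field K] [Algebra k[X] K] [IsFractionRing k[X] K]
  {a b : k[X]}

/-- The class `p` over `k(s)`. -/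
abbrev R2 (K : Type) [Field K] [Algebra k[X] K] (a b p : k[X]) : Prop :=
  Rep2 k (algebraMap k[X] K a) (algebraMap k[X] K b) (algebraMap k[X] K p)

theorem r2_const (h2 : (2 : k) ≠ 0) (hb : b ≠ 0) (hd : a ^ 2 - 4 * b ≠ 0) {c : k} (hc : c ≠ 0)
    {p : k[X]} (h : R2 K a b (C c * p)) : R2 K a b p := by
  obtain ⟨n1, n2, n3⟩ := ne2 (K := K) h2 hb hd
  have h1 := (Rep2.const (K := K) (a := algebraMap k[X] K a) (b := algebraMap k[X] K b)
    (inv_ne_zero hc)).mul n1 n2 n3 h
  rw [← map_mul, ← mul_assoc, ← C_mul, inv_mul_cancel₀ hc, C_1, one_mul] at h1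
  exact h1

theorem r2_sq {p z : k[X]} (hz : z ≠ 0) (h : R2 K a b (z ^ 2 * p)) : R2 K a b p := by
  have inj := IsFractionRing.injective k[X] K
  unfold R2 at h
  rw [map_mul, map_pow] at h
  exact h.of_sq (by rw [Ne, map_eq_zero_iff _ inj]; exact hz)

theorem r2_sq' {z : k[X]} (hz : z ≠ 0) : R2 K a b (z ^ 2) := by
  have inj := IsFractionRing.injective k[X] K
  have h := (Rep2.one (k := k) (K := K) (a := algebraMap k[X] K a)
    (b := algebraMap k[X] K b)).sq (z := algebraMap k[X] K z)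
    (by rw [Ne, map_eq_zero_iff _ inj]; exact hz)
  rwa [mul_one, ← map_pow] at h

theorem r2_mul (h2 : (2 : k) ≠ 0) (hb : b ≠ 0) (hd : a ^ 2 - 4 * b ≠ 0) {p p' : k[X]}
    (h : R2 K a b p) (h' : R2 K a b p') : R2 K a b (p * p') := by
  obtain ⟨n1, n2, n3⟩ := ne2 (K := K) h2 hb hd
  unfold R2
  rw [map_mul]
  exact Rep2.mul n1 n2 n3 h h'

theorem r2_b (h2 : (2 : k) ≠ 0) (hb : b ≠ 0) (hd : a ^ 2 - 4 * b ≠ 0) : R2 K a b b := by
  obtain ⟨n1, n2, n3⟩ := ne2 (K := K) h2 hb hd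
  exact Rep2.ofb n1 n2 n3

theorem r2_dec (h2 : (2 : k) ≠ 0) (hb : b ≠ 0) (hd : a ^ 2 - 4 * b ≠ 0) {u v : k[X]}
    (huv : u * v = b) (h : RepPoly a (u, v)) : R2 K a b u := by
  obtain ⟨n1, n2, n3⟩ := ne2 (K := K) h2 hb hd
  have inj := IsFractionRing.injective k[X] K
  obtain ⟨c, w, hc, e⟩ := h
  have hu : u ≠ 0 := by
    rintro rfl
    rw [zero_mul] at huv
    exact hb huv.symm
  refine r2_const h2 hb hd hc ?_
  refine Rep2.pt (y := algebraMap k[X] K (u * w)) n1 n2 n3 ?_ ?_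
  · rw [Ne, map_eq_zero_iff _ inj]
    exact mul_ne_zero (C_ne_zero.2 hc) hu
  · rw [← map_pow, ← map_pow, ← map_mul, ← map_add, ← map_add, ← map_mul]
    congr 1
    rw [C_pow] at e
    simp only at e
    rw [← huv]
    linear_combination (-(u ^ 2)) * e

end comp

section plan

variable {k : Type} [Field k]

/-- A finite list of decompositions which gives complete first descents. -/
def Plan (b : k[X]) : Prop :=
  ∃ S : List (k[X] × k[X]), (∀ p ∈ S, Dec b p) ∧
    ∀ (k₂ K₂ : Type) [Field k₂] [Field K₂] [Algebra k₂[X] K₂] [IsFractionRing k₂[X] K₂]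
      (φ : k →+* k₂) (a₂ : k₂[X]), a₂ ^ 2 - 4 * b.map φ ≠ 0 →
        (∀ p ∈ S, RepPoly a₂ (p.1.map φ, p.2.map φ)) → Comp2 K₂ 1 a₂ (b.map φ)

theorem two_map {k₂ : Type} [Field k₂] (φ : k →+* k₂) (h : (2 : k) ≠ 0) : (2 : k₂) ≠ 0 := by
  rw [← map_ofNat φ 2]
  exact (map_ne_zero_iff _ φ.injective).2 h

theorem map_lin {k₂ : Type} [Field k₂] (φ : k →+* k₂) (x : k) :
    (X - C x : k[X]).map φ = X - C (φ x) := by
  rw [Polynomial.map_sub, map_X, map_C]

theorem lin_deg (x : k) : (X - C x : k[X]).natDegree ≤ 2 := by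
  rw [natDegree_X_sub_C]; norm_num

theorem lin_deg2 (x y : k) : ((X - C x) * (X - C y) : k[X]).natDegree ≤ 2 := by
  rw [natDegree_mul (X_sub_C_ne_zero x) (X_sub_C_ne_zero y), natDegree_X_sub_C, natDegree_X_sub_C]

theorem d_ne {x y : k} (h : x ≠ y) : disc2 ((X - C x) * (X - C y)) ≠ 0 := by
  rw [disc2_two]
  exact pow_ne_zero 2 (sub_ne_zero.2 h)

theorem d_ne1 (x : k) : disc2 (X - C x) ≠ 0 := by
  rw [disc2_lin]
  exact one_ne_zero

variable (h2 : (2 : k) ≠ 0) {b : k[X]} {κ : k} (hκ : κ ≠ 0)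

include h2 hκ

/-- Four simple roots. -/
theorem plan_A {x y z w : k} (hxy : x ≠ y) (hxz : x ≠ z) (hyw : y ≠ w) (hzw : z ≠ w)
    (e : b = C κ * ((X - C x) * (X - C y) * ((X - C z) * (X - C w)))) : Plan b := by
  refine ⟨[((X - C x) * (X - C y), C κ * ((X - C z) * (X - C w))),
    ((X - C x) * (X - C z), C κ * ((X - C y) * (X - C w)))], ?_, ?_⟩
  · intro p hp
    simp only [List.mem_cons, List.not_mem_nil, or_false] at hp
    rcases hp with rfl | rfl
    · exact dec_of hκ (lin_deg2 x y) (lin_deg2 z w) (d_ne hxy) (d_ne hzw) e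
    · exact dec_of hκ (lin_deg2 x z) (lin_deg2 y w) (d_ne hxz) (d_ne hyw) (by rw [e]; ring)
  · intro k₂ K₂ _ _ _ _ φ a₂ hd hrep
    have h2' := two_map φ h2
    have hκ' : φ κ ≠ 0 := (map_ne_zero_iff _ φ.injective).2 hκ
    have e' : b.map φ = C (φ κ) * ((X - C (φ x)) * (X - C (φ y)) *
        ((X - C (φ z)) * (X - C (φ w)))) := by
      rw [e]
      simp only [Polynomial.map_mul, map_lin, map_C]
    have nx := X_sub_C_ne_zero (φ x)
    have ny := X_sub_C_ne_zero (φ y)
    have nz := X_sub_C_ne_zero (φ z)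
    have nw := X_sub_C_ne_zero (φ w)
    have hb : b.map φ ≠ 0 := by
      rw [e']
      exact mul_ne_zero (C_ne_zero.2 hκ') (mul_ne_zero (mul_ne_zero nx ny) (mul_ne_zero nz nw))
    have hxy' : R2 K₂ a₂ (b.map φ) ((X - C (φ x)) * (X - C (φ y))) := by
      have h := hrep _ (List.mem_cons_self)
      simp only [Polynomial.map_mul, map_lin, map_C] at h
      exact r2_dec h2' hb hd (by rw [e']; ring) h
    have hxz' : R2 K₂ a₂ (b.map φ) ((X - C (φ x)) * (X - C (φ z))) := by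
      have h := hrep _ (List.mem_cons_of_mem _ List.mem_cons_self)
      simp only [Polynomial.map_mul, map_lin, map_C] at h
      exact r2_dec h2' hb hd (by rw [e']; ring) h
    have inj := IsFractionRing.injective k₂[X] K₂
    refine comp_of2 (g := algebraMap k₂[X] K₂ (X - C (φ x))) h2' hb hd (by
      rw [e']
      exact (((Splits.X_sub_C _).mul (Splits.X_sub_C _)).mul
        ((Splits.X_sub_C _).mul (Splits.X_sub_C _))).C_mul _) (by
      rw [Ne, map_eq_zero_iff _ inj]; exact nx) (Or.inr (by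
      rw [e', natDegree_C_mul hκ', natDegree_mul (mul_ne_zero nx ny) (mul_ne_zero nz nw),
        natDegree_mul nx ny, natDegree_mul nz nw]
      simp only [natDegree_X_sub_C])) fun t ht => ?_
    rw [← map_mul]
    rw [e', IsRoot.def] at ht
    simp only [eval_mul, eval_C, eval_sub, eval_X] at ht
    rcases mul_eq_zero.1 ((mul_eq_zero.1 ht).resolve_left hκ') with h | h
    · rcases mul_eq_zero.1 h with h | h
      · rw [sub_eq_zero.1 h]
        have h1 := r2_sq' (K := K₂) (a := a₂) (b := b.map φ) nx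
        rwa [pow_two] at h1
      · rw [sub_eq_zero.1 h, mul_comm]
        exact hxy'
    · rcases mul_eq_zero.1 h with h | h
      · rw [sub_eq_zero.1 h, mul_comm]
        exact hxz'
      · rw [sub_eq_zero.1 h]
        refine r2_sq (mul_ne_zero (mul_ne_zero nx ny) nz) (r2_const h2' hb hd hκ' ?_)
        have h3 := r2_mul h2' hb hd (r2_b (K := K₂) h2' hb hd) (r2_mul h2' hb hd hxy' hxz')
        have e2 : C (φ κ) * (((X - C (φ x)) * (X - C (φ y)) * (X - C (φ z))) ^ 2 *
            ((X - C (φ w)) * (X - C (φ x)))) = b.map φ * (((X - C (φ x)) * (X - C (φ y))) *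
              ((X - C (φ x)) * (X - C (φ z)))) := by rw [e']; ring
        rwa [e2]

end plan

end Pool.Agent.N181.P9
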