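import Pool.Agent.N181.P9.Add

/-!
Pullbacks of curves `y² = x (x² + a x + b)` with complete first descents by rational functions with
exactly one point above each point of bad reduction.
-/

set_option autoImplicit false
set_option linter.all false

open Polynomial IsDedekindDomain WeierstrassCurve WeierstrassCurve.Affine
open scoped Classical

namespace Pool.Agent.N181.P9

open Pool.Agent.N181.P3 (hb hb_map hb_sum hb_psi natDegree_hb_le rm_C_mul)
open Pool.Agent.N181.P8 (natDegree_pb')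
open Pool.Agent.X243.Gen (pb pb_sum pb_mul pb_C pb_one pb_pow pb_lin pb_map pb_frac pb_ne exists_psi
  natDegree_pb root_of_prime form_cop pt_pullT)
open Pool.Agent.TH115.GD

section fac

variable {k L : Type} [Field k] [Field L] (φ : k →+* L)

/-- The polynomial `f` is a constant times an odd power of a separable irreducible polynomial of odd
degree. -/
def PwO (f : L[X]) : Prop :=
  ∃ (ρ : L[X]) (e : ℕ) (u : L), u ≠ 0 ∧ ¬ 2 ∣ e ∧ Irreducible ρ ∧ ρ.Separable ∧ Odd ρ.natDegree ∧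
    f = C u * ρ ^ e

/-- The step of the factorization. -/
theorem pw_step2 {p f : L[X]} (hp : Irreducible p) (hf : PwO f) (hd : p ∣ f) :
    ∃ (v : L) (z : L[X]), v ≠ 0 ∧ z ≠ 0 ∧ p * z ^ 2 = C v * f ∧
      p.natDegree + 2 * z.natDegree = f.natDegree := by
  obtain ⟨ρ, e, u, hu, he, hρ, -, -, rfl⟩ := hf
  have h1 : p ∣ ρ ^ e := (isUnit_C.2 (isUnit_iff_ne_zero.2 hu)).dvd_mul_left.1 hd
  have h2 : p ∣ ρ := hp.prime.dvd_of_dvd_pow h1
  obtain ⟨x, hx⟩ := (hp.associated_of_dvd hρ h2).symm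
  obtain ⟨v, hv, hux⟩ := Polynomial.isUnit_iff.1 x.isUnit
  have ep : p = C v * ρ := by rw [← hx, ← hux, mul_comm]
  obtain ⟨i, hi⟩ : ∃ i, e = 1 + 2 * i := ⟨e / 2, by omega⟩
  have hv0 := hv.ne_zero
  have e3 : (C u⁻¹ : L[X]) * C u = 1 := by
    rw [← C_mul, inv_mul_cancel₀ hu, C_1]
  refine ⟨v * u⁻¹, ρ ^ i, mul_ne_zero hv0 (inv_ne_zero hu), pow_ne_zero _ hρ.ne_zero, ?_, ?_⟩
  · rw [ep, C_mul, hi, pow_add, pow_one, mul_comm 2 i, pow_mul]
    linear_combination (-(C v * ρ * (ρ ^ i) ^ 2)) * e3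
  · rw [ep, natDegree_C_mul hv0, natDegree_C_mul hu, natDegree_pow, natDegree_pow, hi]
    ring

/-- Polynomials supported on the pullback of `g`. -/
theorem fac2 {q r : L[X]} {n M : ℕ} {g : k[X]} (hg : g ≠ 0) (hs : g.Splits)
    (hirr : ∀ ξ, g.IsRoot ξ → PwO (q - C (φ ξ) * r) ∧ (q - C (φ ξ) * r).natDegree = n)
    (hr : r = 1 ∨ g.natDegree = M ∨ (PwO r ∧ r.natDegree = n)) :
    ∀ A : L[X], A ≠ 0 → (∀ π : L[X], Irreducible π → π ∣ A → π ∣ hb q r M (g.map φ)) →
      ∃ (c : L) (j : ℕ) (A₀ : k[X]) (w : L[X]), c ≠ 0 ∧ A₀ ≠ 0 ∧ w ≠ 0 ∧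
        (∀ π : k[X], Irreducible π → π ∣ A₀ → π ∣ g) ∧ (g.natDegree = M → j = 0) ∧
        A * w ^ 2 = C c * (r ^ j * pb q r (A₀.map φ)) ∧
        A.natDegree + 2 * w.natDegree = n * (j + A₀.natDegree) := by
  intro A
  refine WfDvdMonoid.induction_on_irreducible A ?_ ?_ ?_
  · intro h
    exact absurd rfl h
  · intro u hu _ _
    obtain ⟨c, hc, rfl⟩ := Polynomial.isUnit_iff.1 hu
    refine ⟨c, 0, 1, 1, hc.ne_zero, one_ne_zero, one_ne_zero, fun π h1 h2 => absurd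
      (isUnit_of_dvd_one h2) h1.not_isUnit, fun _ => rfl, ?_, ?_⟩
    · rw [Polynomial.map_one, pb_one, pow_zero, mul_one, mul_one, one_pow, mul_one]
    · rw [natDegree_C, natDegree_one, natDegree_one]
      ring
  · intro A' p hA' hp ih _ hd
    obtain ⟨c, j, A₀, w, hc, hA₀, hw, h1, h2, h3, h4⟩ := ih hA' fun π h1 h2 =>
      hd π h1 (h2.mul_left _)
    have h5 := hd p hp (dvd_mul_right _ _)
    rw [hb, natDegree_map] at h5
    rcases hp.prime.dvd_or_dvd h5 with h6 | h6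
    · have h7 : M - g.natDegree ≠ 0 := by
        intro h0
        rw [h0, pow_zero] at h6
        exact hp.not_isUnit (isUnit_of_dvd_one h6)
      have h8 := hp.prime.dvd_of_dvd_pow h6
      have hr' : PwO r ∧ r.natDegree = n := by
        rcases hr with h | h | h
        · rw [h] at h8
          exact absurd (isUnit_of_dvd_one h8) hp.not_isUnit
        · omega
        · exact h
      obtain ⟨v, z, hv, hz, e1, e2⟩ := pw_step2 hp hr'.1 h8
      refine ⟨v * c, j + 1, A₀, w * z, mul_ne_zero hv hc, hA₀, mul_ne_zero hw hz, h1,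
        fun h => absurd h (by omega), ?_, ?_⟩
      · rw [C_mul]
        calc _ = (p * z ^ 2) * (A' * w ^ 2) := by ring
          _ = _ := by rw [e1, h3]; ring
      · rw [natDegree_mul hp.ne_zero hA', natDegree_mul hw hz]
        rw [hr'.2] at e2
        calc _ = (p.natDegree + 2 * z.natDegree) + (A'.natDegree + 2 * w.natDegree) := by ring
          _ = _ := by rw [e2, h4]; ring
    · obtain ⟨ξ, hξ, h7⟩ := root_of_prime φ hg hs hp.prime h6
      obtain ⟨i1, i2⟩ := hirr ξ hξ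
      obtain ⟨v, z, hv, hz, e1, e2⟩ := pw_step2 hp i1 h7
      refine ⟨v * c, j, (X - C ξ) * A₀, w * z, mul_ne_zero hv hc,
        mul_ne_zero (X_sub_C_ne_zero ξ) hA₀, mul_ne_zero hw hz, ?_, h2, ?_, ?_⟩
      · intro π hπ hd'
        rcases hπ.prime.dvd_or_dvd hd' with h | h
        · exact h.trans (dvd_iff_isRoot.2 hξ)
        · exact h1 π hπ h
      · rw [Polynomial.map_mul, Polynomial.map_sub, map_X, map_C, pb_mul, pb_lin, C_mul]
        calc _ = (p * z ^ 2) * (A' * w ^ 2) := by ring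
          _ = _ := by rw [e1, h3]; ring
      · rw [natDegree_mul hp.ne_zero hA', natDegree_mul hw hz,
          natDegree_mul (X_sub_C_ne_zero ξ) hA₀, natDegree_X_sub_C]
        rw [i2] at e2
        calc _ = (p.natDegree + 2 * z.natDegree) + (A'.natDegree + 2 * w.natDegree) := by ring
          _ = _ := by rw [e2, h4]; ring

end fac

section main

variable {k L K₀ K : Type} [Field k] [Field L] [Field K₀] [Algebra k[X] K₀] [IsFractionRing k[X] K₀]
  [Field K] [Algebra L[X] K] [IsFractionRing L[X] K]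

theorem comp_pull2 (φ : k →+* L) (h2 : (2 : k) ≠ 0) {m n : ℕ} {a b : k[X]}
    (ha : a.natDegree ≤ 2 * m) (hbm : b.natDegree ≤ 4 * m) (hb0 : b ≠ 0) (hd0 : a ^ 2 - 4 * b ≠ 0)
    (hsb : b.Splits) (hC : Comp2 K₀ m a b) {q r : L[X]} (hr0 : r ≠ 0) (hn0 : 0 < n)
    {ψ : K₀ →+* K}
    (hψ : ∀ g : k[X], algebraMap L[X] K (pb q r (g.map φ)) =
      (algebraMap L[X] K r) ^ g.natDegree * ψ (algebraMap k[X] K₀ g))
    (hirr : ∀ ξ, b.IsRoot ξ → PwO (q - C (φ ξ) * r) ∧ (q - C (φ ξ) * r).natDegree = n)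
    (hr : r = 1 ∨ b.natDegree = 4 * m ∨ (PwO r ∧ r.natDegree = n))
    (hpar : ¬ 2 ∣ n) {aK bK : K}
    (haK : aK = algebraMap L[X] K (hb q r (2 * m) (a.map φ)))
    (hbK : bK = algebraMap L[X] K (hb q r (4 * m) (b.map φ))) :
    ∀ A : L[X], A ≠ 0 → (∀ π : L[X], Irreducible π → π ∣ A → π ∣ hb q r (4 * m) (b.map φ)) →
      ((hb q r (4 * m) (b.map φ)).natDegree = 4 * (n * m) → 2 ∣ A.natDegree) →
      ∃ (P : Pt (crvT aK bK) K) (c : L) (h : K), c ≠ 0 ∧ h ≠ 0 ∧
        algebraMap L[X] K (C c * A) = h ^ 2 * dT bK P := by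
  intro A hA0 hAd hAdeg
  obtain ⟨c, j, A₀, w, hc, hA₀, hw, h1, h2', h4, h5⟩ := fac2 φ (M := 4 * m) hb0 hsb hirr hr A hA0 hAd
  have hw0 : algebraMap L[X] K w ≠ 0 := by simpa using hw
  have hr0' : algebraMap L[X] K r ≠ 0 := by simpa using hr0
  have inj₀ := IsFractionRing.injective k[X] K₀
  have h2₀ : (2 : K₀) ≠ 0 := by
    have h3 : algebraMap k[X] K₀ (C 2) ≠ 0 := by simpa using h2
    rwa [C_ofNat, map_ofNat] at h3
  have Db := natDegree_pb' φ hb0 hsb hn0 fun ξ h => (hirr ξ h).2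
  -- the degree of the pullback of `b`
  have hdeg : r ≠ 1 ∨ b.natDegree = 4 * m →
      (hb q r (4 * m) (b.map φ)).natDegree = 4 * (n * m) := by
    intro hcase
    have hne : pb q r (b.map φ) ≠ 0 := by
      intro h0
      have := hψ b
      rw [h0, map_zero] at this
      rcases mul_eq_zero.1 this.symm with h | h
      · exact pow_ne_zero _ hr0' h
      · rw [map_eq_zero, map_eq_zero_iff _ inj₀] at h
        exact hb0 h
    rw [hb, natDegree_mul (pow_ne_zero _ hr0) hne, natDegree_pow, Db, natDegree_map]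
    rcases hcase with h | h
    · rcases hr with h' | h' | h'
      · exact absurd h' h
      · rw [h', Nat.sub_self, zero_mul, zero_add]
        ring
      · rw [h'.2, mul_comm n b.natDegree, ← add_mul, Nat.sub_add_cancel hbm]
        ring
    · rw [h, Nat.sub_self, zero_mul, zero_add]
      ring
  have h2dvd : ∀ {x : ℕ}, 2 ∣ n * x → 2 ∣ x := fun h =>
    ((Nat.Prime.dvd_mul Nat.prime_two).1 h).resolve_left hpar
  -- the degree is even
  have hmod : 2 ∣ A.natDegree → 2 ∣ j + A₀.natDegree := by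
    intro h
    apply h2dvd
    rw [← h5]
    exact (Nat.dvd_add_right h).2 (dvd_mul_right 2 _)
  -- the condition for `A₀`
  have hdeg₀ : b.natDegree = 4 * m → 2 ∣ A₀.natDegree := by
    intro h
    have h6 := hmod (hAdeg (hdeg (Or.inr h)))
    rwa [h2' h, zero_add] at h6
  -- the power of `r` is a square
  obtain ⟨z, hz, ez⟩ : ∃ z : K, z ≠ 0 ∧ (algebraMap L[X] K r) ^ (j + A₀.natDegree) = z ^ 2 := by
    by_cases hr1 : r = 1
    · exact ⟨1, one_ne_zero, by rw [hr1, map_one, one_pow, one_pow]⟩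
    · obtain ⟨i, hi⟩ := hmod (hAdeg (hdeg (Or.inl hr1)))
      exact ⟨(algebraMap L[X] K r) ^ i, pow_ne_zero _ hr0', by rw [hi, ← pow_mul, mul_comm]⟩
  obtain ⟨P₀, c1, g1, hc1, hg1, e1⟩ := hC A₀ hA₀ h1 hdeg₀
  have hdK : (algebraMap k[X] K₀ a) ^ 2 - 4 * algebraMap k[X] K₀ b ≠ 0 := by
    have e : (algebraMap k[X] K₀ a) ^ 2 - 4 * algebraMap k[X] K₀ b =
        algebraMap k[X] K₀ (a ^ 2 - 4 * b) := by
      rw [map_sub, map_mul, map_pow, map_ofNat]
    rw [e, Ne, map_eq_zero_iff _ inj₀]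
    exact hd0
  have ρa : aK = ((algebraMap L[X] K r) ^ m) ^ 2 * ψ (algebraMap k[X] K₀ a) := by
    rw [haK, hb_psi φ hψ ha, ← pow_mul, mul_comm m 2]
  have ρb : bK = ((algebraMap L[X] K r) ^ m) ^ 4 * ψ (algebraMap k[X] K₀ b) := by
    rw [hbK, hb_psi φ hψ hbm, ← pow_mul, mul_comm m 4]
  obtain ⟨Q, u, hu, eu⟩ := pt_pullT ψ (pow_ne_zero m hr0') ρa ρb h2₀ (by simpa using hb0) hdK P₀
  have hψC : ∀ c : k, ψ (algebraMap k[X] K₀ (C c)) = algebraMap L[X] K (C (φ c)) := by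
    intro c
    have := hψ (C c)
    rw [map_C, pb_C, natDegree_C, pow_zero, one_mul] at this
    exact this.symm
  refine ⟨Q, φ c1 * c⁻¹, z * (ψ g1 * u) / algebraMap L[X] K w,
    mul_ne_zero ((map_ne_zero_iff _ φ.injective).2 hc1)
    (inv_ne_zero hc), div_ne_zero (mul_ne_zero hz (mul_ne_zero ((map_ne_zero_iff _
      ψ.injective).2 hg1) hu)) hw0, ?_⟩
  have k1 : C (φ c1 * c⁻¹) * A * w ^ 2 = C (φ c1) * (r ^ j * pb q r (A₀.map φ)) := by
    have k3 : C c⁻¹ * C c = (1 : L[X]) := by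
      rw [← C_mul, inv_mul_cancel₀ hc, C_1]
    rw [C_mul]
    linear_combination C (φ c1) * C c⁻¹ * h4 + C (φ c1) * (r ^ j * pb q r (A₀.map φ)) * k3
  have k2 : algebraMap L[X] K (C (φ c1) * (r ^ j * pb q r (A₀.map φ))) =
      z ^ 2 * ψ (algebraMap k[X] K₀ (C c1 * A₀)) := by
    rw [map_mul, map_mul, map_pow, hψ, map_mul (algebraMap k[X] K₀), map_mul ψ, hψC, ← ez, pow_add]
    ring
  have k4 := congrArg (algebraMap L[X] K) k1
  rw [k2, e1, map_mul ψ, map_pow ψ, eu, map_mul, map_pow] at k4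
  rw [div_pow, div_mul_eq_mul_div, eq_div_iff (pow_ne_zero 2 hw0), k4]
  ring

end main

end Pool.Agent.N181.P9
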