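import Pool.Agent.N181.P9.Over

/-!
The Tate conjecture at 2 for the coverings of the rational elliptic surfaces with a section of order two
which have one point above each point of bad reduction.
-/

set_option autoImplicit false
set_option linter.all false

open Polynomial IsDedekindDomain WeierstrassCurve WeierstrassCurve.Affine
open scoped Classical

namespace Pool.Agent.N181.P9

open Pool.Agent.N181.P3 (hb hb_map)
open Pool.Agent.N181.P8 (Small small_bot sep_map exists_lift finite_mid TateQ tate_desc)
open Pool.Agent.TH115.GD

section defs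

variable {L : Type} [Field L]

/-- The generic fibre of the pullback by `s = q / r` of `y² = x (x² + a x + b)`, over `K = L(t)`. -/
noncomputable abbrev surf2 (K : Type) [Field K] [Algebra L[X] K] (q r a b : L[X]) :
    WeierstrassCurve K :=
  crvT (algebraMap L[X] K (hb q r 2 a)) (algebraMap L[X] K (hb q r 4 b))

end defs

section main

variable {k L L' K F : Type} [Field k] [Field L] [Field L'] [Field K] [Field F]
  [Algebra k L] [FiniteDimensional k L] [Algebra L L']
  [Algebra L[X] K] [Algebra L'[X] F] [IsFractionRing L'[X] F] [Algebra K F]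

set_option maxHeartbeats 4000000 in
theorem main9 (hT : IsTower L L' K F) {a b q r : k[X]} {n : ℕ} (hB : RatBase2 a b)
    (hC : Cover2 q r n a b) (hn : Nat.Coprime n (Module.finrank k L)) :
    TateQ (F := F) 2 L' (surf2 K (q.map (algebraMap k L)) (r.map (algebraMap k L))
      (a.map (algebraMap k L)) (b.map (algebraMap k L))) := by
  haveI := hT.sep
  haveI := hT.fracK
  haveI : IsSepClosed L' := IsSepClosure.sep_closed L
  haveI : IsSepClosure K (Sep F) := sepKΩ hT.map
  haveI : Algebra.IsSeparable K (Sep F) := IsSepClosure.separable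
  haveI : IsGalois K (Sep F) := inferInstance
  have hpres : Preserves K F (Sep F) := preserves hT.map
  have hBL := hB.map (algebraMap k L)
  have h0 : b * (a ^ 2 - 4 * b) ≠ 0 := mul_ne_zero hB.hb0 hB.hd0
  have edL : (b.map (algebraMap k L)) * ((a.map (algebraMap k L)) ^ 2 -
      4 * b.map (algebraMap k L)) = (b * (a ^ 2 - 4 * b)).map (algebraMap k L) := by
    rw [map_disc2, ← Polynomial.map_mul]
  have hsepL : ∀ π : L[X], Irreducible π → π ∣ (b.map (algebraMap k L)) *
      ((a.map (algebraMap k L)) ^ 2 - 4 * b.map (algebraMap k L)) → π.Separable := by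
    rw [edL]
    exact sep_map _ h0 fun π h1 h2 => (hC.fin π h1 h2).1
  obtain ⟨M, ⟨hMf, hMn⟩, hMs, hMB⟩ := exists_small2 (L' := L') hBL hC.six hsepL
  haveI := hMf
  letI : Algebra k M := ((algebraMap L M).comp (algebraMap k L)).toAlgebra
  haveI : IsScalarTower k L M := IsScalarTower.of_algebraMap_eq fun x => rfl
  have ekM : algebraMap k M = (algebraMap L M).comp (algebraMap k L) := rfl
  haveI : FiniteDimensional k M := Module.Finite.trans L M
  have hnM : Nat.Coprime n (Module.finrank k M) := by
    rw [← Module.finrank_mul_finrank k L M]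
    exact Nat.Coprime.mul_right hn hMn
  have hF := fib_over2 (M := M) hnM hC h0 (by
    rw [ekM, ← Polynomial.map_map, ← edL]
    exact hMs)
  rw [ekM, ← Polynomial.map_map, ← Polynomial.map_map, ← Polynomial.map_map,
    ← Polynomial.map_map] at hF
  set aL := a.map (algebraMap k L) with haL
  set bL := b.map (algebraMap k L) with hbL
  set qL := q.map (algebraMap k L) with hqL
  set rL := r.map (algebraMap k L) with hrL
  have hpar : ¬ 2 ∣ n := two_of_six hC.six (dvd_refl n)
  -- the fields
  obtain ⟨i₁, hi₁⟩ := exists_lift (K := K) (K₁ := FractionRing M[X]) (algebraMap L M)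
  obtain ⟨i₂, hi₂⟩ := exists_lift (K := FractionRing M[X]) (K₁ := F) (algebraMap M L')
  letI : Algebra K (FractionRing M[X]) := i₁.toAlgebra
  letI : Algebra (FractionRing M[X]) F := i₂.toAlgebra
  have hKK : ∀ p : L[X], algebraMap K (FractionRing M[X]) (algebraMap L[X] K p) =
      algebraMap M[X] (FractionRing M[X]) (p.map (algebraMap L M)) := hi₁
  haveI : IsScalarTower K (FractionRing M[X]) F := by
    refine IsScalarTower.of_algebraMap_eq fun x => ?_
    obtain ⟨g, h, hh, rfl⟩ := IsFractionRing.div_surjective (A := L[X]) x
    have key : ∀ g : L[X], algebraMap K F (algebraMap L[X] K g) =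
        i₂ (i₁ (algebraMap L[X] K g)) := by
      intro g
      rw [hT.map, hi₁, hi₂, Polynomial.map_map]
      rfl
    show algebraMap K F _ = i₂ (i₁ _)
    rw [map_div₀, map_div₀, map_div₀, key, key]
  haveI : IsSepClosure M L' := ⟨IsSepClosure.sep_closed L, by
    haveI : Algebra.IsSeparable L L' := IsSepClosure.separable
    exact Algebra.isSeparable_tower_top_of_isSeparable L M L'⟩
  have hT1 : IsTower M L' (FractionRing M[X]) F := ⟨inferInstance, inferInstance, hi₂⟩
  haveI : FiniteDimensional K (FractionRing M[X]) := finite_mid hKK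
  have hB3 := hMB (FractionRing M[X])
  -- the coefficients
  have eA : algebraMap K (FractionRing M[X]) (algebraMap L[X] K (hb qL rL 2 aL)) =
      algebraMap M[X] (FractionRing M[X]) (hb (qL.map (algebraMap L M)) (rL.map (algebraMap L M))
        (2 * 1) ((aL.map (algebraMap L M)).map (RingHom.id M))) := by
    rw [hKK, hb_map, Polynomial.map_id]
  have eB : algebraMap K (FractionRing M[X]) (algebraMap L[X] K (hb qL rL 4 bL)) =
      algebraMap M[X] (FractionRing M[X]) (hb (qL.map (algebraMap L M)) (rL.map (algebraMap L M))
        (4 * 1) ((bL.map (algebraMap L M)).map (RingHom.id M))) := by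
    rw [hKK, hb_map, Polynomial.map_id]
  have h1 := tate_pull2 (K₀ := FractionRing M[X]) (F := F) hT1 hB3 (RingHom.id M) hF hpar
  refine tate_desc (K₁ := FractionRing M[X]) hpres ?_
  have e : (surf2 K qL rL aL bL).map (algebraMap K (FractionRing M[X])) =
      crvT (algebraMap M[X] (FractionRing M[X]) (hb (qL.map (algebraMap L M))
        (rL.map (algebraMap L M)) (2 * 1) ((aL.map (algebraMap L M)).map (RingHom.id M))))
        (algebraMap M[X] (FractionRing M[X]) (hb (qL.map (algebraMap L M))
          (rL.map (algebraMap L M)) (4 * 1)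
          ((bL.map (algebraMap L M)).map (RingHom.id M)))) := by
    rw [← eA, ← eB]
    ext
    · exact map_zero _
    · rfl
    · exact map_zero _
    · rfl
    · exact map_zero _
  rw [e]
  exact h1

end main

end Pool.Agent.N181.P9
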