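import Pool.Agent.N181.P9.Setup

/-!
Coverings of the line with exactly one point above each point of bad reduction, over extensions of
degree prime to `n`.
-/

set_option autoImplicit false
set_option linter.all false

open Polynomial IsDedekindDomain WeierstrassCurve WeierstrassCurve.Affine
open scoped Classical

namespace Pool.Agent.N181.P9

open Pool.Agent.N181.P8 (Small small_bot sep_map OneAbove OneAboveInf deg_dvd irr_of_coprime)
open Pool.Agent.X243.Gen (pb pb_sum pb_mul pb_C pb_one pb_pow pb_lin pb_map pb_frac pb_ne exists_psi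
  natDegree_pb root_of_prime form_cop natDegree_pb_le)
open Pool.Agent.TH115.GD

section defs

variable {k : Type} [Field k]

/-- The map `s = q(t) / r(t)` of degree `n` prime to `6` has exactly one point above each place of bad
reduction of `y² = x (x² + a x + b)` over `k(s)`, `deg a ≤ 2`, `deg b ≤ 4` (the place at infinity is a
place of good reduction if `b` and `a² - 4 b` have degree four). -/
structure Cover2 (q r : k[X]) (n : ℕ) (a b : k[X]) : Prop where
  co : IsCoprime q r
  qp : 0 < q.natDegree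
  qn : q.natDegree ≤ n
  rn : r.natDegree ≤ n
  six : Nat.Coprime n 6
  fin : ∀ π : k[X], Irreducible π → π ∣ b * (a ^ 2 - 4 * b) → π.Separable ∧ OneAbove q r n π
  inf : (b.natDegree = 4 ∧ (a ^ 2 - 4 * b).natDegree = 4) ∨ OneAboveInf r n

theorem two_of_six {n e : ℕ} (h6 : Nat.Coprime n 6) (he : e ∣ n) : ¬ 2 ∣ e := by
  intro h
  have h1 : 2 ∣ Nat.gcd n 6 := Nat.dvd_gcd (h.trans he) (by norm_num)
  rw [h6] at h1
  omega

end defs

section overM

variable {k M : Type} [Field k] [Field M] [Algebra k M] [FiniteDimensional k M]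

/-- The form of a root. -/
theorem form_over2 {q r : k[X]} {n : ℕ} (h6 : Nat.Coprime n 6)
    (hn : Nat.Coprime n (Module.finrank k M))
    (hco : IsCoprime q r) (hq : 0 < q.natDegree) (hqn : q.natDegree ≤ n) (hrn : r.natDegree ≤ n)
    {π : k[X]} (hπ : Irreducible π)
    (hπs : π.Separable) (h1 : OneAbove q r n π) (hs : (π.map (algebraMap k M)).Splits)
    {ξ : M} (hξ : (π.map (algebraMap k M)).IsRoot ξ) :
    PwO (q.map (algebraMap k M) - C ξ * r.map (algebraMap k M)) ∧
      (q.map (algebraMap k M) - C ξ * r.map (algebraMap k M)).natDegree = n := by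
  obtain ⟨ρ, e, f, u, hu, hρ, hρs, hef, hdeg, hpb⟩ := h1
  have inj := (algebraMap k M).injective
  set q1 := q.map (algebraMap k M) with hq1
  set r1 := r.map (algebraMap k M) with hr1
  have hn0 : 0 < n := hq.trans_le hqn
  have hco1 : IsCoprime q1 r1 := hco.map (mapRingHom (algebraMap k M))
  have hq1d : 0 < q1.natDegree := by rw [hq1, natDegree_map]; exact hq
  have hpi0 : π.map (algebraMap k M) ≠ 0 := (Polynomial.map_ne_zero_iff inj).2 hπ.ne_zero
  obtain ⟨π', hπ'⟩ := dvd_iff_isRoot.2 hξ
  have hπ'0 : π' ≠ 0 := by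
    rintro rfl
    rw [mul_zero] at hπ'
    exact hpi0 hπ'
  have hπ's : π'.Splits := hs.of_dvd hpi0 ⟨_, by rw [mul_comm]; exact hπ'⟩
  have hd1 : π.natDegree = 1 + π'.natDegree := by
    have := congrArg natDegree hπ'
    rw [natDegree_map, natDegree_mul (X_sub_C_ne_zero ξ) hπ'0, natDegree_X_sub_C] at this
    exact this
  set F := q1 - C ξ * r1 with hF
  have hpb1 : F * pb q1 r1 π' = C (algebraMap k M u) * (ρ.map (algebraMap k M)) ^ e := by
    have := congrArg (Polynomial.map (algebraMap k M)) hpb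
    rw [pb_map, hπ', pb_mul, pb_lin, Polynomial.map_mul, Polynomial.map_pow, map_C] at this
    exact this
  have hu1 : algebraMap k M u ≠ 0 := (map_ne_zero_iff _ inj).2 hu
  have hρ10 : ρ.map (algebraMap k M) ≠ 0 := (Polynomial.map_ne_zero_iff inj).2 hρ.ne_zero
  have hP0 : pb q1 r1 π' ≠ 0 := pb_ne hco1 hq1d hπ'0
  have hF0 : F ≠ 0 := by
    intro h0
    rw [h0, zero_mul] at hpb1
    exact (mul_ne_zero (C_ne_zero.2 hu1) (pow_ne_zero e hρ10)) hpb1.symm
  -- the degree
  have hFn : F.natDegree = n := by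
    have h1 := congrArg natDegree hpb1
    rw [natDegree_mul hF0 hP0, natDegree_C_mul hu1, natDegree_pow, natDegree_map, hdeg, hd1] at h1
    have h2 : (pb q1 r1 π').natDegree ≤ n * π'.natDegree := natDegree_pb_le
      (by rw [hq1, natDegree_map]; exact hqn) (by rw [hr1, natDegree_map]; exact hrn) π'
    have h3 : F.natDegree ≤ n := by
      refine (natDegree_sub_le _ _).trans (max_le (by rw [hq1, natDegree_map]; exact hqn) ?_)
      exact (natDegree_C_mul_le _ _).trans (by rw [hr1, natDegree_map]; exact hrn)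
    have h4 : e * (f * (1 + π'.natDegree)) = n + n * π'.natDegree := by
      rw [← mul_assoc, hef]; ring
    rw [h4] at h1
    omega
  refine ⟨?_, hFn⟩
  have hFu : ¬ IsUnit F := by
    intro h
    have := natDegree_eq_zero_of_isUnit h
    omega
  obtain ⟨g, hg, hgF⟩ := WfDvdMonoid.exists_irreducible_factor hFu hF0
  have hcu : IsUnit (C (algebraMap k M u) : M[X]) := isUnit_C.2 (isUnit_iff_ne_zero.2 hu1)
  have hgρ : g ∣ ρ.map (algebraMap k M) := by
    have h1 : g ∣ C (algebraMap k M u) * (ρ.map (algebraMap k M)) ^ e := by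
      rw [← hpb1]
      exact hgF.mul_right _
    exact hg.prime.dvd_of_dvd_pow (hcu.dvd_mul_left.1 h1)
  -- the degree of `g`
  have hfg : f ∣ g.natDegree := by
    have h1 := deg_dvd hρ hg hgρ
    rw [hdeg] at h1
    have h2 : f ∣ g.natDegree * Module.finrank k M := (dvd_mul_right f _).trans h1
    refine Nat.Coprime.dvd_of_dvd_mul_right ?_ h2
    exact Nat.Coprime.coprime_dvd_left ⟨e, by rw [mul_comm]; exact hef.symm⟩ hn
  -- `g` does not divide the other factors
  have hgP : ¬ g ∣ pb q1 r1 π' := by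
    intro h
    obtain ⟨ξ', hξ', h1⟩ := root_of_prime (RingHom.id M) hπ'0 hπ's hg.prime
      (by rw [Polynomial.map_id]; exact h)
    have hne : ξ ≠ ξ' := by
      rintro rfl
      have h2 : (X - C ξ) ^ 2 ∣ π.map (algebraMap k M) := by
        rw [hπ', pow_two]
        exact mul_dvd_mul_left _ (dvd_iff_isRoot.2 hξ')
      have h3 := (hπs.map (f := algebraMap k M)).squarefree (X - C ξ) (by rwa [pow_two] at h2)
      exact (irreducible_X_sub_C ξ).not_isUnit h3
    exact hg.not_isUnit (form_cop (RingHom.id M) hco1 hne hgF h1)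
  have hge : g ^ e ∣ F := by
    apply hg.prime.pow_dvd_of_dvd_mul_right e hgP
    rw [hpb1]
    exact (pow_dvd_pow_of_dvd hgρ e).mul_left _
  have hassoc : Associated (g ^ e) F := by
    apply associated_of_dvd_of_natDegree_le hge hF0
    rw [natDegree_pow, hFn, ← hef]
    exact Nat.mul_le_mul_left e (Nat.le_of_dvd hg.natDegree_pos hfg)
  have hgf : g.natDegree ∣ n := by
    have h1 := natDegree_le_of_dvd hge hF0
    have h2 : (g ^ e).natDegree = n := by
      apply le_antisymm (by rw [← hFn]; exact h1)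
      rw [natDegree_pow, ← hef]
      exact Nat.mul_le_mul_left e (Nat.le_of_dvd hg.natDegree_pos hfg)
    rw [natDegree_pow] at h2
    exact ⟨e, by rw [← h2, mul_comm]⟩
  obtain ⟨x, hx⟩ := hassoc
  obtain ⟨v, hv, hvx⟩ := Polynomial.isUnit_iff.1 x.isUnit
  refine ⟨g, e, v, hv.ne_zero, two_of_six h6 ⟨f, hef.symm⟩, hg, hρs.map.of_dvd hgρ, ?_, ?_⟩
  · have := two_of_six h6 hgf
    rw [← Nat.not_even_iff_odd, even_iff_two_dvd]
    exact this
  rw [← hx, ← hvx, mul_comm]

theorem inf_over2 {r : k[X]} {n : ℕ} (hn0 : 0 < n) (h6 : Nat.Coprime n 6)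
    (hn : Nat.Coprime n (Module.finrank k M)) (h : OneAboveInf r n) :
    r.map (algebraMap k M) = 1 ∨ (PwO (r.map (algebraMap k M)) ∧
      (r.map (algebraMap k M)).natDegree = n) := by
  rcases h with h | ⟨ρ, e, f, u, hu, hρ, hρs, hef, hdeg, hr⟩
  · left
    rw [h, Polynomial.map_one]
  · right
    have hu1 : algebraMap k M u ≠ 0 := (map_ne_zero_iff _ (algebraMap k M).injective).2 hu
    have hfn : f ∣ n := ⟨e, by rw [mul_comm]; exact hef.symm⟩
    have hirr : Irreducible (ρ.map (algebraMap k M)) := irr_of_coprime hρ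
      (by rw [hdeg]; exact Nat.Coprime.coprime_dvd_left hfn hn)
    refine ⟨⟨ρ.map (algebraMap k M), e, algebraMap k M u, hu1, two_of_six h6 ⟨f, hef.symm⟩,
      hirr, hρs.map, ?_, ?_⟩, ?_⟩
    · rw [natDegree_map, hdeg, ← Nat.not_even_iff_odd, even_iff_two_dvd]
      exact two_of_six h6 hfn
    · rw [hr, Polynomial.map_mul, Polynomial.map_pow, map_C]
    · rw [natDegree_map, hr, natDegree_C_mul hu, natDegree_pow, hdeg, hef]

theorem fib_over2 {q r a b : k[X]} {n : ℕ} (hn : Nat.Coprime n (Module.finrank k M))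
    (hC : Cover2 q r n a b) (h0 : b * (a ^ 2 - 4 * b) ≠ 0)
    (hs : ((b * (a ^ 2 - 4 * b)).map (algebraMap k M)).Splits) :
    Fib2 (RingHom.id M) (q.map (algebraMap k M)) (r.map (algebraMap k M)) 1 n
      (a.map (algebraMap k M)) (b.map (algebraMap k M)) := by
  have inj := (algebraMap k M).injective
  have hn0 : 0 < n := hC.qp.trans_le hC.qn
  have hmap0 : (b * (a ^ 2 - 4 * b)).map (algebraMap k M) ≠ 0 :=
    (Polynomial.map_ne_zero_iff inj).2 h0
  have edisc : (b.map (algebraMap k M)) * ((a.map (algebraMap k M)) ^ 2 -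
      4 * b.map (algebraMap k M)) = (b * (a ^ 2 - 4 * b)).map (algebraMap k M) := by
    rw [map_disc2, ← Polynomial.map_mul]
  refine ⟨hC.co.map (mapRingHom (algebraMap k M)), ?_, ?_, ?_, ?_, ?_⟩
  · rw [natDegree_map]; exact hC.qp
  · rw [natDegree_map]; exact hC.qn
  · rw [natDegree_map]; exact hC.rn
  · intro ξ hξ
    rw [edisc] at hξ
    have hint : IsIntegral k ξ := IsIntegral.of_finite k ξ
    have hd : minpoly k ξ ∣ b * (a ^ 2 - 4 * b) := by
      apply minpoly.dvd
      rw [← eval_map_algebraMap]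
      exact hξ
    have hirr := minpoly.irreducible hint
    obtain ⟨h1, h2⟩ := hC.fin _ hirr hd
    refine form_over2 hC.six hn hC.co hC.qp hC.qn hC.rn hirr h1 h2
      (hs.of_dvd hmap0 ((mapRingHom (algebraMap k M)).map_dvd hd)) ?_
    rw [IsRoot.def, eval_map_algebraMap]
    exact minpoly.aeval k ξ
  · rw [map_disc2, natDegree_map, natDegree_map]
    rcases hC.inf with h | h
    · exact Or.inr (Or.inl h)
    · rcases inf_over2 hn0 hC.six hn h with h | h
      · exact Or.inl h
      · exact Or.inr (Or.inr h)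

end overM

section setup

variable {L L' : Type} [Field L] [Field L'] [Algebra L L'] [IsSepClosure L L']

/-- **The extension of the constants.** -/
theorem exists_small2 {a b : L[X]} (hB : RatBase2 a b) {n : ℕ} (hn : Nat.Coprime n 6)
    (hsep : ∀ π : L[X], Irreducible π → π ∣ b * (a ^ 2 - 4 * b) → π.Separable) :
    ∃ M : IntermediateField L L', Small n M ∧
      ((b * (a ^ 2 - 4 * b)).map (algebraMap L M)).Splits ∧
      ∀ (K : Type) [Field K] [Algebra M[X] K] [IsFractionRing M[X] K],
        Base2 K 1 (a.map (algebraMap L M)) (b.map (algebraMap L M)) := by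
  haveI : IsSepClosed L' := IsSepClosure.sep_closed L
  have hb0 := hB.hb0
  have hd0 := hB.hd0
  have h0 : b * (a ^ 2 - 4 * b) ≠ 0 := mul_ne_zero hb0 hd0
  have hs := splits_of_sep (k' := L') h0 hsep
  -- the roots
  set S : Finset L' := ((b * (a ^ 2 - 4 * b)).rootSet_finite L').toFinset with hS
  obtain ⟨M1, -, hM1, hS1⟩ := small_set4 hn S (by
    intro x hx
    rw [hS, Set.Finite.mem_toFinset, mem_rootSet] at hx
    have h1 := hx.2
    rw [map_mul] at h1
    rcases mul_eq_zero.1 h1 with h | h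
    · exact ⟨b, hb0, hB.db, h⟩
    · exact ⟨_, hd0, hB.dd, h⟩) ⊥ (small_bot n)
  have hsM1 : ((b * (a ^ 2 - 4 * b)).map (algebraMap L M1)).Splits :=
    IntermediateField.splits_of_splits hs fun x hx => hS1 x (by
      rw [hS, Set.Finite.mem_toFinset]
      exact hx)
  have hB1 := hB.map (algebraMap L M1)
  have inj1 := (algebraMap L M1).injective
  have h01 : (b * (a ^ 2 - 4 * b)).map (algebraMap L M1) ≠ 0 :=
    (Polynomial.map_ne_zero_iff inj1).2 h0
  have sb1 : (b.map (algebraMap L M1)).Splits :=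
    hsM1.of_dvd h01 ((mapRingHom (algebraMap L M1)).map_dvd (dvd_mul_right _ _))
  have sd1 : ((a ^ 2 - 4 * b).map (algebraMap L M1)).Splits :=
    hsM1.of_dvd h01 ((mapRingHom (algebraMap L M1)).map_dvd (dvd_mul_left _ _))
  obtain ⟨S1, hS1d, hS1C⟩ := exists_plan hB1.two hB1.db sb1 hB1.cb
  obtain ⟨S2, hS2d, hS2C⟩ := exists_plan hB1.two hB1.dd (by rw [map_disc2]; exact sd1) hB1.cd
  -- the points
  obtain ⟨M2, h12, hM2, hr1⟩ := small_reps hn _ M1 hM1 hB1.two (b := b.map (algebraMap L M1))
    hB1.da S1 rfl hS1d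
  let φ1 : M1 →+* M2 := (IntermediateField.inclusion h12 : M1 →ₐ[L] M2)
  have hdm : ∀ u : M1[X], disc2 (u.map φ1) = φ1 (disc2 u) := by
    intro u
    unfold disc2
    rw [coeff_map, coeff_map, coeff_map, map_sub, map_pow, map_mul, map_mul, map_ofNat]
  obtain ⟨M, h23, hM, hr2⟩ := small_reps hn _ M2 hM2 (two_map φ1 hB1.two)
    (a := -2 * (a.map (algebraMap L M1)).map φ1)
    (b := ((a.map (algebraMap L M1)) ^ 2 - 4 * b.map (algebraMap L M1)).map φ1)
    (two_a.trans (by rw [natDegree_map]; exact hB1.da))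
    (S2.map fun p => (p.1.map φ1, p.2.map φ1)) rfl (by
      intro p' hp'
      rw [List.mem_map] at hp'
      obtain ⟨p0, hp0, rfl⟩ := hp'
      obtain ⟨e1, e2, e3, e4, e5⟩ := hS2d p0 hp0
      refine ⟨?_, ?_, ?_, ?_, ?_⟩
      · show p0.1.map φ1 * p0.2.map φ1 = _
        rw [← Polynomial.map_mul, e1]
      · show (p0.1.map φ1).natDegree ≤ 2
        rw [natDegree_map]; exact e2
      · show (p0.2.map φ1).natDegree ≤ 2
        rw [natDegree_map]; exact e3
      · show disc2 (p0.1.map φ1) ≠ 0
        rw [hdm]; exact (map_ne_zero_iff _ φ1.injective).2 e4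
      · show disc2 (p0.2.map φ1) ≠ 0
        rw [hdm]; exact (map_ne_zero_iff _ φ1.injective).2 e5)
  let φ2 : M2 →+* M := (IntermediateField.inclusion h23 : M2 →ₐ[L] M)
  let φ : M1 →+* M := (IntermediateField.inclusion (h12.trans h23) : M1 →ₐ[L] M)
  have hφ12 : φ2.comp φ1 = φ := RingHom.ext fun t => rfl
  have hφ : φ.comp (algebraMap L M1) = algebraMap L M :=
    (IntermediateField.inclusion (h12.trans h23)).comp_algebraMap
  have hsM : ((b * (a ^ 2 - 4 * b)).map (algebraMap L M)).Splits := by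
    rw [← hφ, ← Polynomial.map_map]
    exact hsM1.map φ
  have hBM := hB.map (algebraMap L M)
  have h0M : (b * (a ^ 2 - 4 * b)).map (algebraMap L M) ≠ 0 :=
    (Polynomial.map_ne_zero_iff (algebraMap L M).injective).2 h0
  have sb : (b.map (algebraMap L M)).Splits :=
    hsM.of_dvd h0M ((mapRingHom (algebraMap L M)).map_dvd (dvd_mul_right _ _))
  have sd : ((a.map (algebraMap L M)) ^ 2 - 4 * b.map (algebraMap L M)).Splits := by
    rw [map_disc2]
    exact hsM.of_dvd h0M ((mapRingHom (algebraMap L M)).map_dvd (dvd_mul_left _ _))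
  refine ⟨M, hM, hsM, ?_⟩
  intro K _ _ _
  have e1 : (a.map (algebraMap L M1)).map φ = a.map (algebraMap L M) := by
    rw [Polynomial.map_map, hφ]
  have e2 : (b.map (algebraMap L M1)).map φ = b.map (algebraMap L M) := by
    rw [Polynomial.map_map, hφ]
  refine ⟨hBM.two, hBM.da, hBM.db, hBM.hb0, hBM.hd0, sb, sd, exists_mult2 sb hBM.cb,
    exists_mult2 sd hBM.cd, ?_, ?_⟩
  · have := hS1C M K φ (a.map (algebraMap L M)) (by rw [e2]; exact hBM.hd0) (by
      intro p hp
      have h3 := (hr1 p hp).map φ2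
      simp only [Polynomial.map_map] at h3
      have h4 : φ2.comp (IntermediateField.inclusion h12 : M1 →+* M2) = φ := hφ12
      have h6 : φ2.comp ((IntermediateField.inclusion h12 : M1 →+* M2).comp (algebraMap L M1)) =
          algebraMap L M := by
        rw [← RingHom.comp_assoc, h4, hφ]
      rw [h6, h4] at h3
      exact h3)
    rwa [e2] at this
  · have e3 : (((a.map (algebraMap L M1)) ^ 2 - 4 * b.map (algebraMap L M1))).map φ =
        (a.map (algebraMap L M)) ^ 2 - 4 * b.map (algebraMap L M) := by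
      rw [← map_disc2, e1, e2]
    have hdual : (-2 * a.map (algebraMap L M)) ^ 2 -
        4 * ((a.map (algebraMap L M)) ^ 2 - 4 * b.map (algebraMap L M)) ≠ 0 := by
      rw [dual_disc2]
      have h16 : (16 : M) ≠ 0 := by
        have : (16 : M) = 2 ^ 4 := by norm_num
        rw [this]
        exact pow_ne_zero 4 hBM.two
      exact mul_ne_zero (C_ne_zero.2 h16) hBM.hb0
    have := hS2C M K φ (-2 * a.map (algebraMap L M)) (by rw [e3]; exact hdual) (by
      intro p hp
      have h3 := hr2 _ (List.mem_map.2 ⟨p, hp, rfl⟩)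
      have h4 : (IntermediateField.inclusion h23 : M2 →+* M).comp φ1 = φ := hφ12
      have h5 : (-2 * (a.map (algebraMap L M1)).map φ1).map
          (IntermediateField.inclusion h23 : M2 →+* M) = -2 * a.map (algebraMap L M) := by
        rw [Polynomial.map_mul, Polynomial.map_neg, Polynomial.map_ofNat, Polynomial.map_map, h4, e1]
      rw [h5] at h3
      simp only [Polynomial.map_map] at h3
      rw [h4] at h3
      exact h3)
    rwa [e3] at this

end setup

end Pool.Agent.N181.P9
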