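import Pool.Agent.N181.P9.Comp

/-!
The decompositions for all the patterns of the roots.
-/

set_option autoImplicit false
set_option linter.all false

open Polynomial IsDedekindDomain WeierstrassCurve WeierstrassCurve.Affine
open scoped Classical

namespace Pool.Agent.N181.P9

open Pool.Agent.TH115.GD

section plan

variable {k : Type} [Field k]

variable (h2 : (2 : k) ≠ 0) {b : k[X]} {κ : k} (hκ : κ ≠ 0)

include h2 hκ

/-- A double root `x` and two simple roots `y`, `z`. -/
theorem plan_B {x y z : k} (hxy : x ≠ y) (hxz : x ≠ z)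
    (e : b = C κ * ((X - C x) * (X - C y) * ((X - C x) * (X - C z)))) : Plan b := by
  refine ⟨[((X - C x) * (X - C y), C κ * ((X - C x) * (X - C z)))], ?_, ?_⟩
  · intro p hp
    simp only [List.mem_cons, List.not_mem_nil, or_false] at hp
    rcases hp with rfl
    exact dec_of hκ (lin_deg2 x y) (lin_deg2 x z) (d_ne hxy) (d_ne hxz) e
  · intro k₂ K₂ _ _ _ _ φ a₂ hd hrep
    have h2' := two_map φ h2
    have hκ' : φ κ ≠ 0 := (map_ne_zero_iff _ φ.injective).2 hκ
    have e' : b.map φ = C (φ κ) * ((X - C (φ x)) * (X - C (φ y)) *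
        ((X - C (φ x)) * (X - C (φ z)))) := by
      rw [e]
      simp only [Polynomial.map_mul, map_lin, map_C]
    have nx := X_sub_C_ne_zero (φ x)
    have ny := X_sub_C_ne_zero (φ y)
    have nz := X_sub_C_ne_zero (φ z)
    have hb : b.map φ ≠ 0 := by
      rw [e']
      exact mul_ne_zero (C_ne_zero.2 hκ') (mul_ne_zero (mul_ne_zero nx ny) (mul_ne_zero nx nz))
    have hxy' : R2 K₂ a₂ (b.map φ) ((X - C (φ x)) * (X - C (φ y))) := by
      have h := hrep _ (List.mem_cons_self)
      simp only [Polynomial.map_mul, map_lin, map_C] at h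
      exact r2_dec h2' hb hd (by rw [e']; ring) h
    have inj := IsFractionRing.injective k₂[X] K₂
    refine comp_of2 (g := algebraMap k₂[X] K₂ (X - C (φ x))) h2' hb hd (by
      rw [e']
      exact (((Splits.X_sub_C _).mul (Splits.X_sub_C _)).mul
        ((Splits.X_sub_C _).mul (Splits.X_sub_C _))).C_mul _) (by
      rw [Ne, map_eq_zero_iff _ inj]; exact nx) (Or.inr (by
      rw [e', natDegree_C_mul hκ', natDegree_mul (mul_ne_zero nx ny) (mul_ne_zero nx nz),
        natDegree_mul nx ny, natDegree_mul nx nz]
      simp only [natDegree_X_sub_C])) fun t ht => ?_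
    rw [← map_mul]
    rw [e', IsRoot.def] at ht
    simp only [eval_mul, eval_C, eval_sub, eval_X] at ht
    have hx : R2 K₂ a₂ (b.map φ) ((X - C (φ x)) * (X - C (φ x))) := by
      have h1 := r2_sq' (K := K₂) (a := a₂) (b := b.map φ) nx
      rwa [pow_two] at h1
    rcases mul_eq_zero.1 ((mul_eq_zero.1 ht).resolve_left hκ') with h | h
    · rcases mul_eq_zero.1 h with h | h
      · rw [sub_eq_zero.1 h]
        exact hx
      · rw [sub_eq_zero.1 h, mul_comm]
        exact hxy'
    · rcases mul_eq_zero.1 h with h | h
      · rw [sub_eq_zero.1 h]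
        exact hx
      · rw [sub_eq_zero.1 h]
        refine r2_sq (mul_ne_zero nx ny) (r2_const h2' hb hd hκ' ?_)
        have h3 := r2_mul h2' hb hd (r2_b (K := K₂) h2' hb hd) hxy'
        have e2 : C (φ κ) * (((X - C (φ x)) * (X - C (φ y))) ^ 2 *
            ((X - C (φ z)) * (X - C (φ x)))) = b.map φ * ((X - C (φ x)) * (X - C (φ y))) := by
          rw [e']; ring
        rwa [e2]

/-- A triple root `x` and a simple root `y`. -/
theorem plan_C {x y : k}
    (e : b = C κ * ((X - C x) ^ 3 * (X - C y))) : Plan b := by
  refine ⟨[], fun p hp => absurd hp List.not_mem_nil, ?_⟩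
  intro k₂ K₂ _ _ _ _ φ a₂ hd hrep
  have h2' := two_map φ h2
  have hκ' : φ κ ≠ 0 := (map_ne_zero_iff _ φ.injective).2 hκ
  have e' : b.map φ = C (φ κ) * ((X - C (φ x)) ^ 3 * (X - C (φ y))) := by
    rw [e]
    simp only [Polynomial.map_mul, Polynomial.map_pow, map_lin, map_C]
  have nx := X_sub_C_ne_zero (φ x)
  have ny := X_sub_C_ne_zero (φ y)
  have hb : b.map φ ≠ 0 := by
    rw [e']
    exact mul_ne_zero (C_ne_zero.2 hκ') (mul_ne_zero (pow_ne_zero 3 nx) ny)
  have inj := IsFractionRing.injective k₂[X] K₂
  refine comp_of2 (g := algebraMap k₂[X] K₂ (X - C (φ x))) h2' hb hd (by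
    rw [e']
    exact (((Splits.X_sub_C _).pow 3).mul (Splits.X_sub_C _)).C_mul _) (by
    rw [Ne, map_eq_zero_iff _ inj]; exact nx) (Or.inr (by
    rw [e', natDegree_C_mul hκ', natDegree_mul (pow_ne_zero 3 nx) ny, natDegree_pow]
    simp only [natDegree_X_sub_C])) fun t ht => ?_
  rw [← map_mul]
  rw [e', IsRoot.def] at ht
  simp only [eval_mul, eval_C, eval_sub, eval_X, eval_pow] at ht
  rcases mul_eq_zero.1 ((mul_eq_zero.1 ht).resolve_left hκ') with h | h
  · rw [sub_eq_zero.1 (pow_eq_zero_iff (by norm_num) |>.1 h)]
    have h1 := r2_sq' (K := K₂) (a := a₂) (b := b.map φ) nx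
    rwa [pow_two] at h1
  · rw [sub_eq_zero.1 h]
    refine r2_sq nx (r2_const h2' hb hd hκ' ?_)
    have h3 := r2_b (K := K₂) h2' hb hd
    have e2 : C (φ κ) * ((X - C (φ x)) ^ 2 * ((X - C (φ y)) * (X - C (φ x)))) = b.map φ := by
      rw [e']; ring
    rwa [e2]

/-- Three simple roots. -/
theorem plan_D {x y z : k} (hxy : x ≠ y) (hxz : x ≠ z)
    (e : b = C κ * ((X - C x) * (X - C y) * (X - C z))) : Plan b := by
  refine ⟨[(X - C z, C κ * ((X - C x) * (X - C y))),
    (X - C y, C κ * ((X - C x) * (X - C z)))], ?_, ?_⟩
  · intro p hp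
    simp only [List.mem_cons, List.not_mem_nil, or_false] at hp
    rcases hp with rfl | rfl
    · exact dec_of hκ (lin_deg z) (lin_deg2 x y) (d_ne1 z) (d_ne hxy) (by rw [e]; ring)
    · exact dec_of hκ (lin_deg y) (lin_deg2 x z) (d_ne1 y) (d_ne hxz) (by rw [e]; ring)
  · intro k₂ K₂ _ _ _ _ φ a₂ hd hrep
    have h2' := two_map φ h2
    have hκ' : φ κ ≠ 0 := (map_ne_zero_iff _ φ.injective).2 hκ
    have e' : b.map φ = C (φ κ) * ((X - C (φ x)) * (X - C (φ y)) * (X - C (φ z))) := by
      rw [e]
      simp only [Polynomial.map_mul, map_lin, map_C]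
    have nx := X_sub_C_ne_zero (φ x)
    have ny := X_sub_C_ne_zero (φ y)
    have nz := X_sub_C_ne_zero (φ z)
    have hb : b.map φ ≠ 0 := by
      rw [e']
      exact mul_ne_zero (C_ne_zero.2 hκ') (mul_ne_zero (mul_ne_zero nx ny) nz)
    have hz' : R2 K₂ a₂ (b.map φ) (X - C (φ z)) := by
      have h := hrep _ (List.mem_cons_self)
      simp only [Polynomial.map_mul, map_lin, map_C] at h
      exact r2_dec h2' hb hd (by rw [e']; ring) h
    have hy' : R2 K₂ a₂ (b.map φ) (X - C (φ y)) := by
      have h := hrep _ (List.mem_cons_of_mem _ List.mem_cons_self)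
      simp only [Polynomial.map_mul, map_lin, map_C] at h
      exact r2_dec h2' hb hd (by rw [e']; ring) h
    refine comp_of2 (g := 1) h2' hb hd (by
      rw [e']
      exact (((Splits.X_sub_C _).mul (Splits.X_sub_C _)).mul
        (Splits.X_sub_C _)).C_mul _) one_ne_zero (Or.inl rfl) fun t ht => ?_
    rw [mul_one]
    rw [e', IsRoot.def] at ht
    simp only [eval_mul, eval_C, eval_sub, eval_X] at ht
    rcases mul_eq_zero.1 ((mul_eq_zero.1 ht).resolve_left hκ') with h | h
    · rcases mul_eq_zero.1 h with h | h
      · rw [sub_eq_zero.1 h]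
        refine r2_sq (mul_ne_zero ny nz) (r2_const h2' hb hd hκ' ?_)
        have h3 := r2_mul h2' hb hd (r2_b (K := K₂) h2' hb hd) (r2_mul h2' hb hd hy' hz')
        have e2 : C (φ κ) * (((X - C (φ y)) * (X - C (φ z))) ^ 2 * (X - C (φ x))) =
            b.map φ * ((X - C (φ y)) * (X - C (φ z))) := by
          rw [e']; ring
        rwa [e2]
      · rw [sub_eq_zero.1 h]
        exact hy'
    · rw [sub_eq_zero.1 h]
      exact hz'

/-- A double root `x` and a simple root `y`. -/
theorem plan_E {x y : k} (hxy : x ≠ y)
    (e : b = C κ * ((X - C x) ^ 2 * (X - C y))) : Plan b := by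
  refine ⟨[(X - C x, C κ * ((X - C x) * (X - C y)))], ?_, ?_⟩
  · intro p hp
    simp only [List.mem_cons, List.not_mem_nil, or_false] at hp
    rcases hp with rfl
    exact dec_of hκ (lin_deg x) (lin_deg2 x y) (d_ne1 x) (d_ne hxy) (by rw [e]; ring)
  · intro k₂ K₂ _ _ _ _ φ a₂ hd hrep
    have h2' := two_map φ h2
    have hκ' : φ κ ≠ 0 := (map_ne_zero_iff _ φ.injective).2 hκ
    have e' : b.map φ = C (φ κ) * ((X - C (φ x)) ^ 2 * (X - C (φ y))) := by
      rw [e]
      simp only [Polynomial.map_mul, Polynomial.map_pow, map_lin, map_C]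
    have nx := X_sub_C_ne_zero (φ x)
    have ny := X_sub_C_ne_zero (φ y)
    have hb : b.map φ ≠ 0 := by
      rw [e']
      exact mul_ne_zero (C_ne_zero.2 hκ') (mul_ne_zero (pow_ne_zero 2 nx) ny)
    have hx' : R2 K₂ a₂ (b.map φ) (X - C (φ x)) := by
      have h := hrep _ (List.mem_cons_self)
      simp only [Polynomial.map_mul, map_lin, map_C] at h
      exact r2_dec h2' hb hd (by rw [e']; ring) h
    refine comp_of2 (g := 1) h2' hb hd (by
      rw [e']
      exact (((Splits.X_sub_C _).pow 2).mul (Splits.X_sub_C _)).C_mul _) one_ne_zero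
        (Or.inl rfl) fun t ht => ?_
    rw [mul_one]
    rw [e', IsRoot.def] at ht
    simp only [eval_mul, eval_C, eval_sub, eval_X, eval_pow] at ht
    rcases mul_eq_zero.1 ((mul_eq_zero.1 ht).resolve_left hκ') with h | h
    · rw [sub_eq_zero.1 (pow_eq_zero_iff (by norm_num) |>.1 h)]
      exact hx'
    · rw [sub_eq_zero.1 h]
      refine r2_sq nx (r2_const h2' hb hd hκ' ?_)
      have h3 := r2_b (K := K₂) h2' hb hd
      have e2 : C (φ κ) * ((X - C (φ x)) ^ 2 * (X - C (φ y))) = b.map φ := by
        rw [e']
      rwa [e2]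

/-- A root of odd multiplicity `2 j + 1` and no other root. -/
theorem plan_F {x : k} (j : ℕ) (e : b = C κ * (X - C x) ^ (2 * j + 1)) : Plan b := by
  refine ⟨[], fun p hp => absurd hp List.not_mem_nil, ?_⟩
  intro k₂ K₂ _ _ _ _ φ a₂ hd hrep
  have h2' := two_map φ h2
  have hκ' : φ κ ≠ 0 := (map_ne_zero_iff _ φ.injective).2 hκ
  have e' : b.map φ = C (φ κ) * (X - C (φ x)) ^ (2 * j + 1) := by
    rw [e]
    simp only [Polynomial.map_mul, Polynomial.map_pow, map_lin, map_C]
  have nx := X_sub_C_ne_zero (φ x)
  have hb : b.map φ ≠ 0 := by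
    rw [e']
    exact mul_ne_zero (C_ne_zero.2 hκ') (pow_ne_zero _ nx)
  refine comp_of2 (g := 1) h2' hb hd (by
    rw [e']
    exact ((Splits.X_sub_C _).pow _).C_mul _) one_ne_zero
      (Or.inl rfl) fun t ht => ?_
  rw [mul_one]
  rw [e', IsRoot.def] at ht
  simp only [eval_mul, eval_C, eval_sub, eval_X, eval_pow] at ht
  have h := (mul_eq_zero.1 ht).resolve_left hκ'
  rw [sub_eq_zero.1 (pow_eq_zero_iff (by omega) |>.1 h)]
  refine r2_sq (pow_ne_zero j nx) (r2_const h2' hb hd hκ' ?_)
  have h3 := r2_b (K := K₂) h2' hb hd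
  have e2 : C (φ κ) * (((X - C (φ x)) ^ j) ^ 2 * (X - C (φ x))) = b.map φ := by
    rw [e', ← pow_mul, mul_comm j 2, ← pow_succ]
  rwa [e2]

/-- Two simple roots. -/
theorem plan_G {x y : k}
    (e : b = C κ * ((X - C x) * (X - C y))) : Plan b := by
  refine ⟨[(X - C x, C κ * (X - C y))], ?_, ?_⟩
  · intro p hp
    simp only [List.mem_cons, List.not_mem_nil, or_false] at hp
    rcases hp with rfl
    exact dec_of hκ (lin_deg x) (lin_deg y) (d_ne1 x) (d_ne1 y) e
  · intro k₂ K₂ _ _ _ _ φ a₂ hd hrep
    have h2' := two_map φ h2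
    have hκ' : φ κ ≠ 0 := (map_ne_zero_iff _ φ.injective).2 hκ
    have e' : b.map φ = C (φ κ) * ((X - C (φ x)) * (X - C (φ y))) := by
      rw [e]
      simp only [Polynomial.map_mul, map_lin, map_C]
    have nx := X_sub_C_ne_zero (φ x)
    have ny := X_sub_C_ne_zero (φ y)
    have hb : b.map φ ≠ 0 := by
      rw [e']
      exact mul_ne_zero (C_ne_zero.2 hκ') (mul_ne_zero nx ny)
    have hx' : R2 K₂ a₂ (b.map φ) (X - C (φ x)) := by
      have h := hrep _ (List.mem_cons_self)
      simp only [Polynomial.map_mul, map_lin, map_C] at h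
      exact r2_dec h2' hb hd (by rw [e']; ring) h
    refine comp_of2 (g := 1) h2' hb hd (by
      rw [e']
      exact ((Splits.X_sub_C _).mul (Splits.X_sub_C _)).C_mul _) one_ne_zero
        (Or.inl rfl) fun t ht => ?_
    rw [mul_one]
    rw [e', IsRoot.def] at ht
    simp only [eval_mul, eval_C, eval_sub, eval_X] at ht
    rcases mul_eq_zero.1 ((mul_eq_zero.1 ht).resolve_left hκ') with h | h
    · rw [sub_eq_zero.1 h]
      exact hx'
    · rw [sub_eq_zero.1 h]
      refine r2_sq nx (r2_const h2' hb hd hκ' ?_)
      have h3 := r2_mul h2' hb hd (r2_b (K := K₂) h2' hb hd) hx'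
      have e2 : C (φ κ) * ((X - C (φ x)) ^ 2 * (X - C (φ y))) = b.map φ * (X - C (φ x)) := by
        rw [e']; ring
      rwa [e2]

end plan

section exists_plan

variable {k : Type} [Field k]

theorem exists_plan (h2 : (2 : k) ≠ 0) {b : k[X]} (db : b.natDegree ≤ 4) (hs : b.Splits)
    (hcb : ∀ (c : k) (w : k[X]), b ≠ C c * w ^ 2) : Plan b := by
  have hb0 : b ≠ 0 := by
    rintro rfl
    exact hcb 0 0 (by simp)
  set κ := b.leadingCoeff with hκdef
  have hκ : κ ≠ 0 := leadingCoeff_ne_zero.2 hb0
  have e := hs.eq_prod_roots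
  have hcard : b.roots.card = b.natDegree := hs.natDegree_eq_card_roots.symm
  obtain h0 | h0 | h0 | h0 | h0 : b.roots.card = 0 ∨ b.roots.card = 1 ∨ b.roots.card = 2 ∨
    b.roots.card = 3 ∨ b.roots.card = 4 := by omega
  · exfalso
    rw [Multiset.card_eq_zero] at h0
    rw [h0, Multiset.map_zero, Multiset.prod_zero, mul_one] at e
    exact hcb κ 1 (by rw [one_pow, mul_one]; exact e)
  · obtain ⟨x, hξ⟩ := Multiset.card_eq_one.1 h0
    rw [hξ, Multiset.map_singleton, Multiset.prod_singleton] at e
    exact plan_F h2 hκ 0 (x := x) (by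
      conv_lhs => rw [e]
      ring)
  · obtain ⟨x, y, hξ⟩ := Multiset.card_eq_two.1 h0
    rw [hξ] at e
    simp only [Multiset.insert_eq_cons, Multiset.map_cons, Multiset.map_singleton,
      Multiset.prod_cons, Multiset.prod_singleton] at e
    exact plan_G h2 hκ e
  · obtain ⟨x, y, z, hξ⟩ := Multiset.card_eq_three.1 h0
    rw [hξ] at e
    simp only [Multiset.insert_eq_cons, Multiset.map_cons, Multiset.map_singleton,
      Multiset.prod_cons, Multiset.prod_singleton] at e
    by_cases hxy : x = y
    · subst hxy
      by_cases hxz : x = z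
      · subst hxz
        exact plan_F h2 hκ 1 (x := x) (by conv_lhs => rw [e]
                                          ring)
      · exact plan_E h2 hκ hxz (by conv_lhs => rw [e]
                                   ring)
    · by_cases hxz : x = z
      · subst hxz
        exact plan_E h2 hκ hxy (by conv_lhs => rw [e]
                                   ring)
      · exact plan_D h2 hκ hxy hxz (by conv_lhs => rw [e]
                                       ring)
  · obtain ⟨x, s, hs', hs3⟩ : ∃ (x : k) (s : Multiset k), b.roots = x ::ₘ s ∧ s.card = 3 := by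
      obtain ⟨x, hx⟩ := Multiset.card_pos_iff_exists_mem.1 (by omega : 0 < b.roots.card)
      obtain ⟨s, hs'⟩ := Multiset.exists_cons_of_mem hx
      refine ⟨x, s, hs', ?_⟩
      rw [hs', Multiset.card_cons] at h0
      omega
    obtain ⟨y, z, w, hξ⟩ := Multiset.card_eq_three.1 hs3
    rw [hs', hξ] at e
    simp only [Multiset.insert_eq_cons, Multiset.map_cons, Multiset.map_singleton,
      Multiset.prod_cons, Multiset.prod_singleton] at e
    by_cases hxy : x = y
    · subst hxy
      by_cases hxz : x = z
      · subst hxz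
        by_cases hxw : x = w
        · subst hxw
          exact absurd (by conv_lhs => rw [e]
                           ring) (hcb κ ((X - C x) ^ 2))
        · exact plan_C h2 hκ (x := x) (y := w) (by conv_lhs => rw [e]
                                                   ring)
      · by_cases hxw : x = w
        · subst hxw
          exact plan_C h2 hκ (x := x) (y := z) (by conv_lhs => rw [e]
                                                   ring)
        · by_cases hzw : z = w
          · subst hzw
            exact absurd (by conv_lhs => rw [e]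
                             ring) (hcb κ ((X - C x) * (X - C z)))
          · exact plan_B h2 hκ hxz hxw (by conv_lhs => rw [e]
                                           ring)
    · by_cases hxz : x = z
      · subst hxz
        by_cases hxw : x = w
        · subst hxw
          exact plan_C h2 hκ (x := x) (y := y) (by conv_lhs => rw [e]
                                                   ring)
        · by_cases hyw : y = w
          · subst hyw
            exact absurd (by conv_lhs => rw [e]
                             ring) (hcb κ ((X - C x) * (X - C y)))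
          · exact plan_B h2 hκ hxy hxw (by conv_lhs => rw [e]
                                           ring)
      · by_cases hxw : x = w
        · subst hxw
          by_cases hyz : y = z
          · subst hyz
            exact absurd (by conv_lhs => rw [e]
                             ring) (hcb κ ((X - C x) * (X - C y)))
          · exact plan_B h2 hκ hxy hxz (by conv_lhs => rw [e]
                                           ring)
        · by_cases hyz : y = z
          · subst hyz
            by_cases hyw : y = w
            · subst hyw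
              exact plan_C h2 hκ (x := y) (y := x) (by conv_lhs => rw [e]
                                                       ring)
            · exact plan_B h2 hκ (x := y) (y := x) (z := w) (Ne.symm hxy) hyw
                (by conv_lhs => rw [e]
                    ring)
          · by_cases hyw : y = w
            · subst hyw
              exact plan_B h2 hκ (x := y) (y := x) (z := z) (Ne.symm hxy) hyz
                (by conv_lhs => rw [e]
                    ring)
            · by_cases hzw : z = w
              · subst hzw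
                exact plan_B h2 hκ (x := z) (y := x) (z := y) (Ne.symm hxz) (Ne.symm hyz)
                  (by conv_lhs => rw [e]
                      ring)
              · exact plan_A h2 hκ hxy hxz hyw hzw (by conv_lhs => rw [e]
                                                       ring)

end exists_plan

end Pool.Agent.N181.P9
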