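import Pool.Agent.N181.P9.Plan

/-!
The quartic polynomials whose roots give complete first descents.
-/

set_option autoImplicit false
set_option linter.all false

open Polynomial
open scoped Classical

namespace Pool.Agent.N181.P9

open Pool.Agent.N181.P8 (Small small_bot)

section root

/-- A polynomial of degree four has a root in a separably closed field of characteristic not two. -/
theorem quartic_root {M N : Type} [Field M] [Field N] [Algebra M N] [IsSepClosed N]
    (h2 : (2 : M) ≠ 0) {G : M[X]} (hG : G.natDegree = 4) : ∃ x : N, aeval x G = 0 := by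
  have hG0 : G ≠ 0 := by
    rintro rfl
    rw [natDegree_zero] at hG
    omega
  have hu : ¬ IsUnit G := by
    intro h
    have := natDegree_eq_zero_of_isUnit h
    omega
  obtain ⟨g, hg, hgG⟩ := WfDvdMonoid.exists_irreducible_factor hu hG0
  by_cases hs : g.Separable
  · obtain ⟨x, hx⟩ := IsSepClosed.exists_aeval_eq_zero N g (by
      intro h
      have := natDegree_eq_of_degree_eq_some (n := 0) h
      have := hg.natDegree_pos
      omega) hs
    obtain ⟨h, rfl⟩ := hgG
    exact ⟨x, by rw [map_mul, hx, zero_mul]⟩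
  · rw [separable_iff_derivative_ne_zero hg, not_not] at hs
    have hd : g.natDegree ≤ 4 := by rw [← hG]; exact natDegree_le_of_dvd hgG hG0
    have hpos := hg.natDegree_pos
    have hlc : ((g.natDegree : ℕ) : M) = 0 := by
      have h1 := congrArg (fun p => coeff p (g.natDegree - 1)) hs
      simp only [coeff_derivative, coeff_zero] at h1
      have e : g.natDegree - 1 + 1 = g.natDegree := by omega
      rw [e] at h1
      have h3 : g.coeff g.natDegree ≠ 0 := leadingCoeff_ne_zero.2 hg.ne_zero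
      have h4 := (mul_eq_zero.1 h1).resolve_left h3
      have h5 : ((g.natDegree - 1 : ℕ) : M) + 1 = ((g.natDegree - 1 + 1 : ℕ) : M) := by push_cast; rfl
      rw [h5, e] at h4
      exact h4
    have h3 : g.natDegree = 3 := by
      obtain h | h | h | h : g.natDegree = 1 ∨ g.natDegree = 2 ∨ g.natDegree = 3 ∨
        g.natDegree = 4 := by omega
      · rw [h, Nat.cast_one] at hlc
        exact absurd hlc one_ne_zero
      · rw [h, Nat.cast_ofNat] at hlc
        exact absurd hlc h2
      · exact h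
      · rw [h] at hlc
        have : ((4 : ℕ) : M) = 2 * 2 := by norm_num
        rw [this] at hlc
        exact absurd hlc (mul_ne_zero h2 h2)
    obtain ⟨h, rfl⟩ := hgG
    have hh : h ≠ 0 := right_ne_zero_of_mul hG0
    have h1 : h.natDegree = 1 := by
      rw [natDegree_mul hg.ne_zero hh, h3] at hG
      omega
    obtain ⟨x, hx⟩ := exists_root_of_degree_eq_one (p := h) (by
      rw [degree_eq_natDegree hh, h1]; rfl)
    refine ⟨algebraMap M N x, ?_⟩
    rw [map_mul, aeval_algebraMap_apply N x h, coe_aeval_eq_eval, IsRoot.def.1 hx, map_zero,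
      mul_zero]

variable {L L' : Type} [Field L] [Field L'] [Algebra L L']

set_option synthInstance.maxHeartbeats 400000 in
/-- Adjoining a root of a polynomial of degree at most four. -/
theorem small_step4 {n : ℕ} (hn : Nat.Coprime n 6) {M : IntermediateField L L'} (hM : Small n M)
    {x : L'} {G : M[X]} (hG : G ≠ 0) (hG3 : G.natDegree ≤ 4) (hx : aeval x G = 0) :
    ∃ M' : IntermediateField L L', M ≤ M' ∧ Small n M' ∧ x ∈ M' := by
  obtain ⟨h1, h2⟩ := hM
  have hint : IsIntegral M x := IsAlgebraic.isIntegral ⟨G, hG, hx⟩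
  let E : IntermediateField M L' := IntermediateField.adjoin M {x}
  have hE : FiniteDimensional M E := IntermediateField.adjoin.finiteDimensional hint
  have h3 : Module.finrank M E ≤ 4 := by
    rw [IntermediateField.adjoin.finrank hint]
    exact (natDegree_le_of_dvd (minpoly.dvd M x hx) hG).trans hG3
  have h4 : 0 < Module.finrank M E := Module.finrank_pos
  refine ⟨E.restrictScalars L, ?_, ⟨?_, ?_⟩, ?_⟩
  · intro y hy
    rw [IntermediateField.mem_restrictScalars]
    exact E.algebraMap_mem ⟨y, hy⟩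
  · exact (Module.Finite.trans M E : Module.Finite L E)
  · have h5 : Module.finrank L (E.restrictScalars L) = Module.finrank L M * Module.finrank M E :=
      (Module.finrank_mul_finrank L M E).symm
    rw [h5]
    refine Nat.Coprime.mul_right h2 ?_
    have h6 : Module.finrank M E ∣ 6 ^ 2 := by
      obtain h | h | h | h : Module.finrank M E = 1 ∨ Module.finrank M E = 2 ∨
        Module.finrank M E = 3 ∨ Module.finrank M E = 4 := by omega
      all_goals rw [h]; norm_num
    exact Nat.Coprime.coprime_dvd_right h6 (Nat.Coprime.pow_right 2 hn)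
  · rw [IntermediateField.mem_restrictScalars]
    exact IntermediateField.mem_adjoin_simple_self M x

theorem small_set4 {n : ℕ} (hn : Nat.Coprime n 6) (S : Finset L')
    (hS : ∀ x ∈ S, ∃ G : L[X], G ≠ 0 ∧ G.natDegree ≤ 4 ∧ aeval x G = 0) :
    ∀ M : IntermediateField L L', Small n M →
      ∃ M' : IntermediateField L L', M ≤ M' ∧ Small n M' ∧ ∀ x ∈ S, x ∈ M' := by
  induction S using Finset.induction with
  | empty => exact fun M hM => ⟨M, le_rfl, hM, fun x hx => absurd hx (Finset.notMem_empty x)⟩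
  | insert y S hy ih =>
    intro M hM
    obtain ⟨M1, h1, h2, h3⟩ := ih (fun x hx => hS x (Finset.mem_insert_of_mem hx)) M hM
    obtain ⟨G, hG, hG3, hGx⟩ := hS y (Finset.mem_insert_self y S)
    obtain ⟨M2, h4, h5, h6⟩ := small_step4 hn h2 (x := y) (G := G.map (algebraMap L M1))
      ((Polynomial.map_ne_zero_iff (algebraMap L M1).injective).2 hG)
      (by rw [natDegree_map]; exact hG3) (by rw [aeval_map_algebraMap]; exact hGx)
    refine ⟨M2, h1.trans h4, h5, fun x hx => ?_⟩
    rcases Finset.mem_insert.1 hx with rfl | hx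
    · exact h6
    · exact h4 (h3 x hx)

/-- Square roots. -/
theorem small_sqrt {n : ℕ} (hn : Nat.Coprime n 6) [IsSepClosed L'] (h2 : (2 : L') ≠ 0)
    {M : IntermediateField L L'} (hM : Small n M) (d : M) :
    ∃ (M' : IntermediateField L L') (h : M ≤ M'), Small n M' ∧
      ∃ δ : M', δ ^ 2 = IntermediateField.inclusion h d := by
  haveI : NeZero ((2 : ℕ) : L') := ⟨by exact_mod_cast h2⟩
  obtain ⟨x, hx⟩ := IsSepClosed.exists_pow_nat_eq (d : L') 2
  obtain ⟨M', h, hM', hxM⟩ := small_step4 hn hM (x := x) (G := X ^ 2 - C d)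
    (X_pow_sub_C_ne_zero two_pos d) (by rw [natDegree_X_pow_sub_C]; norm_num) (by
      rw [map_sub, map_pow, aeval_X, aeval_C, hx]
      exact sub_self _)
  refine ⟨M', h, hM', ⟨x, hxM⟩, Subtype.ext ?_⟩
  exact hx

end root

section quart

variable {k : Type} [Field k]

/-- The discriminant of `c² u + c a + v` as a polynomial in `c`. -/
noncomputable def quart (a u v : k[X]) : k[X] :=
  C (disc2 u) * X ^ 4 + C (2 * a.coeff 1 * u.coeff 1 - 4 * (a.coeff 2 * u.coeff 0 +
    u.coeff 2 * a.coeff 0)) * X ^ 3 + C (a.coeff 1 ^ 2 + 2 * u.coeff 1 * v.coeff 1 -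
    4 * (u.coeff 2 * v.coeff 0 + a.coeff 2 * a.coeff 0 + v.coeff 2 * u.coeff 0)) * X ^ 2 +
    C (2 * a.coeff 1 * v.coeff 1 - 4 * (a.coeff 2 * v.coeff 0 + v.coeff 2 * a.coeff 0)) * X +
    C (disc2 v)

theorem quart_deg {a u v : k[X]} (hu : disc2 u ≠ 0) : (quart a u v).natDegree = 4 := by
  unfold quart
  have h1 : (C (2 * a.coeff 1 * u.coeff 1 - 4 * (a.coeff 2 * u.coeff 0 +
    u.coeff 2 * a.coeff 0)) * X ^ 3 + C (a.coeff 1 ^ 2 + 2 * u.coeff 1 * v.coeff 1 -
    4 * (u.coeff 2 * v.coeff 0 + a.coeff 2 * a.coeff 0 + v.coeff 2 * u.coeff 0)) * X ^ 2 +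
    C (2 * a.coeff 1 * v.coeff 1 - 4 * (a.coeff 2 * v.coeff 0 + v.coeff 2 * a.coeff 0)) * X +
    C (disc2 v)).natDegree ≤ 3 := natDegree_cubic_le
  rw [add_assoc, add_assoc, add_assoc, ← add_assoc (C _ * X ^ 2), ← add_assoc (C _ * X ^ 3),
    ← add_assoc (C _ * X ^ 3)]
  rw [natDegree_add_eq_left_of_natDegree_lt]
  · exact natDegree_C_mul_X_pow 4 _ hu
  · rw [natDegree_C_mul_X_pow 4 _ hu]
    exact lt_of_le_of_lt h1 (by norm_num)

theorem quart_eval {k₂ : Type} [Field k₂] (φ : k →+* k₂) {a u v : k[X]} {c : k₂}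
    (h : eval₂ φ c (quart a u v) = 0) :
    disc2 (C (c ^ 2) * u.map φ + C c * a.map φ + v.map φ) = 0 := by
  unfold quart disc2 at h
  unfold disc2
  simp only [eval₂_add, eval₂_mul, eval₂_C, eval₂_pow, eval₂_X] at h
  simp only [map_mul, map_add, map_sub, map_pow, map_ofNat] at h
  simp only [coeff_add, coeff_C_mul, coeff_map]
  linear_combination h

theorem quart_zero {k₂ : Type} [Field k₂] (φ : k →+* k₂) {a u v : k[X]} {c : k₂}
    (h : eval₂ φ c (quart a u v) = 0) (hv : disc2 v ≠ 0) : c ≠ 0 := by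
  rintro rfl
  unfold quart at h
  simp only [eval₂_add, eval₂_mul, eval₂_C, eval₂_pow, eval₂_X, ne_eq, OfNat.ofNat_ne_zero,
    not_false_eq_true, zero_pow, mul_zero, zero_add] at h
  exact hv ((map_eq_zero_iff φ φ.injective).1 h)

/-- A quadratic polynomial with discriminant zero. -/
theorem sq_of_disc (h2 : (2 : k) ≠ 0) {Q : k[X]} (hQ : Q.natDegree ≤ 2) (hd : disc2 Q = 0) {c δ ε : k}
    (hδ : δ ^ 2 = c * Q.coeff 2) (hε : ε ^ 2 = c * Q.coeff 0) : ∃ w : k[X], C c * Q = w ^ 2 := by
  obtain ⟨q2, q1, q0, e2, e1, e0, e⟩ : ∃ q2 q1 q0 : k, Q.coeff 2 = q2 ∧ Q.coeff 1 = q1 ∧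
      Q.coeff 0 = q0 ∧ Q = C q2 * X ^ 2 + C q1 * X + C q0 := by
    refine ⟨_, _, _, rfl, rfl, rfl, ?_⟩
    conv_lhs => rw [Q.as_sum_range_C_mul_X_pow' (n := 3) (by omega)]
    rw [Finset.sum_range_succ, Finset.sum_range_succ, Finset.sum_range_one]
    ring
  unfold disc2 at hd
  rw [e2, e1, e0] at hd
  rw [e2] at hδ
  rw [e0] at hε
  by_cases h0 : q2 = 0
  · have h1 : q1 = 0 := by
      rw [h0] at hd
      have : q1 ^ 2 = 0 := by linear_combination hd
      exact pow_eq_zero_iff (by norm_num) |>.1 this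
    refine ⟨C ε, ?_⟩
    rw [e, h0, h1, ← C_pow, hε]
    simp
  · -- `Q = q₂ (X + q₁ / (2 q₂))²`
    obtain ⟨t, ht⟩ : ∃ t : k, t = q1 / (2 * q2) := ⟨_, rfl⟩
    have e1 : q0 = q2 * t ^ 2 := by
      rw [ht]
      field_simp
      linear_combination (-1) * hd
    have e2 : q1 = 2 * q2 * t := by
      rw [ht]
      field_simp
    refine ⟨C δ * (X + C t), ?_⟩
    rw [mul_pow, ← C_pow, hδ, e, e1, e2]
    have e3 : (C (2 : k) : k[X]) = 2 := rfl
    simp only [C_mul, C_pow, e3]
    ring

end quart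

end Pool.Agent.N181.P9
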