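import Pool.Agent.N181.P9.Quart

/-!
The finite extension of the constants over which the first descents are complete.
-/

set_option autoImplicit false
set_option linter.all false

open Polynomial IsDedekindDomain WeierstrassCurve WeierstrassCurve.Affine
open scoped Classical

namespace Pool.Agent.N181.P9

open Pool.Agent.N181.P8 (Small small_bot sep_map)
open Pool.Agent.TH115.GD

/-- The elliptic curve `y² = x (x² + a x + b)` over `k(s)` with `deg a ≤ 2`, `deg b ≤ 4` (a rational
elliptic surface with a section of order two), where `b` and `a² - 4 b` are not constants times squares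
(in particular they are not constant). -/
structure RatBase2 {k : Type} [Field k] (a b : k[X]) : Prop where
  two : (2 : k) ≠ 0
  da : a.natDegree ≤ 2
  db : b.natDegree ≤ 4
  cb : ∀ (c : k) (w : k[X]), b ≠ C c * w ^ 2
  cd : ∀ (c : k) (w : k[X]), a ^ 2 - 4 * b ≠ C c * w ^ 2

section lemmas

variable {k M : Type} [Field k] [Field M]

theorem map_disc2 (φ : k →+* M) (a b : k[X]) :
    (a.map φ) ^ 2 - 4 * b.map φ = (a ^ 2 - 4 * b).map φ := by
  rw [Polynomial.map_sub, Polynomial.map_pow, Polynomial.map_mul, Polynomial.map_ofNat]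

theorem coeffs4 (s4 s3 s2 s1 s0 : M) {P : M[X]}
    (hP : P = C s4 * X ^ 4 + C s3 * X ^ 3 + C s2 * X ^ 2 + C s1 * X + C s0) :
    P.coeff 4 = s4 ∧ P.coeff 3 = s3 ∧ P.coeff 2 = s2 ∧ P.coeff 1 = s1 ∧ P.coeff 0 = s0 := by
  rw [hP]
  refine ⟨?_, ?_, ?_, ?_, ?_⟩ <;> simp [coeff_X, coeff_C]

/-- A polynomial of degree at most four which becomes a constant times a square over an extension is a
constant times a square. -/
theorem nonsq_map (φ : k →+* M) (h2 : (2 : k) ≠ 0) {b : k[X]} (db : b.natDegree ≤ 4)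
    (cb : ∀ (c : k) (w : k[X]), b ≠ C c * w ^ 2) :
    ∀ (c : M) (w : M[X]), b.map φ ≠ C c * w ^ 2 := by
  intro c w e
  have hb0 : b ≠ 0 := by
    rintro rfl
    exact cb 0 0 (by simp)
  have hc : c ≠ 0 := by
    rintro rfl
    rw [C_0, zero_mul, Polynomial.map_eq_zero_iff φ.injective] at e
    exact hb0 e
  have hw0 : w ≠ 0 := by
    rintro rfl
    rw [zero_pow two_ne_zero, mul_zero, Polynomial.map_eq_zero_iff φ.injective] at e
    exact hb0 e
  have hd := congrArg natDegree e
  rw [natDegree_map, natDegree_C_mul hc, natDegree_pow] at hd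
  have hw : w.natDegree ≤ 2 := by omega
  have h2M := two_map φ h2
  -- the coefficients of `w`
  obtain ⟨u, v, t, ew⟩ : ∃ u v t : M, w = C u * X ^ 2 + C v * X + C t := by
    refine ⟨w.coeff 2, w.coeff 1, w.coeff 0, ?_⟩
    conv_lhs => rw [w.as_sum_range_C_mul_X_pow' (n := 3) (by omega)]
    rw [Finset.sum_range_succ, Finset.sum_range_succ, Finset.sum_range_one]
    ring
  have e3 : (C (2 : M) : M[X]) = 2 := rfl
  have E : b.map φ = C (c * u ^ 2) * X ^ 4 + C (2 * c * u * v) * X ^ 3 +
      C (c * (v ^ 2 + 2 * u * t)) * X ^ 2 + C (2 * c * v * t) * X + C (c * t ^ 2) := by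
    rw [e, ew]
    simp only [C_mul, C_pow, C_add, e3]
    ring
  obtain ⟨c4, c3, c2, c1, c0⟩ := coeffs4 _ _ _ _ _ E
  rw [coeff_map] at c4 c3 c2 c1 c0
  by_cases hu0 : u = 0
  · by_cases hv0 : v = 0
    · -- constant
      have h0 : b.natDegree = 0 := by
        rw [hd, ew, hu0, hv0]
        simp
      rw [eq_C_of_natDegree_eq_zero h0] at cb
      exact cb (b.coeff 0) 1 (by rw [one_pow, mul_one])
    · have hb2 : φ (b.coeff 2) = c * v ^ 2 := by rw [c2, hu0]; ring
      have hb2' : b.coeff 2 ≠ 0 := by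
        intro h
        rw [h, map_zero] at hb2
        exact (mul_ne_zero hc (pow_ne_zero 2 hv0)) hb2.symm
      apply cb (b.coeff 2) (X + C (b.coeff 1 / (2 * b.coeff 2)))
      apply Polynomial.map_injective φ φ.injective
      have e4 : φ (b.coeff 1 / (2 * b.coeff 2)) = t / v := by
        rw [map_div₀, map_mul φ, map_ofNat φ, c1, hb2]
        field_simp
      rw [e, Polynomial.map_mul, Polynomial.map_pow, Polynomial.map_add, map_X, map_C, map_C,
        hb2, e4, ew, hu0]
      have e5 : C v * C (t / v) = (C t : M[X]) := by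
        rw [← C_mul, mul_div_cancel₀ _ hv0]
      rw [← e5, C_mul, C_pow, C_0]
      ring
  · have hb4 : b.coeff 4 ≠ 0 := by
      intro h
      rw [h, map_zero] at c4
      exact (mul_ne_zero hc (pow_ne_zero 2 hu0)) c4.symm
    obtain ⟨p, hp⟩ : ∃ p : k, p = b.coeff 3 / (2 * b.coeff 4) := ⟨_, rfl⟩
    obtain ⟨q, hq⟩ : ∃ q : k, q = (b.coeff 2 / b.coeff 4 - p ^ 2) / 2 := ⟨_, rfl⟩
    have ep : φ p = v / u := by
      rw [hp, map_div₀, map_mul φ, map_ofNat φ, c3, c4]
      field_simp
    have eq' : φ q = t / u := by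
      rw [hq, map_div₀, map_sub φ, map_div₀, map_pow φ, map_ofNat φ, ep, c2, c4]
      field_simp
      ring
    apply cb (b.coeff 4) (X ^ 2 + C p * X + C q)
    apply Polynomial.map_injective φ φ.injective
    rw [e, Polynomial.map_mul, Polynomial.map_pow, Polynomial.map_add, Polynomial.map_add,
      Polynomial.map_pow, Polynomial.map_mul, map_X, map_C, map_C, map_C, c4, ep, eq', ew]
    have e5 : C u * C (v / u) = (C v : M[X]) := by
      rw [← C_mul, mul_div_cancel₀ _ hu0]
    have e6 : C u * C (t / u) = (C t : M[X]) := by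
      rw [← C_mul, mul_div_cancel₀ _ hu0]
    rw [← e5, ← e6, C_mul, C_pow]
    ring

/-- There is a root of odd multiplicity. -/
theorem exists_mult2 {b : k[X]} (hs : b.Splits)
    (cb : ∀ (c : k) (w : k[X]), b ≠ C c * w ^ 2) : ∃ ξ : k, ¬ 2 ∣ b.rootMultiplicity ξ := by
  by_contra hcon
  push Not at hcon
  have e := hs.eq_prod_roots
  apply cb b.leadingCoeff (∏ ξ ∈ b.roots.toFinset, (X - C ξ) ^ (b.roots.count ξ / 2))
  conv_lhs => rw [e]
  rw [Finset.prod_multiset_map_count, ← Finset.prod_pow]
  congr 1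
  refine Finset.prod_congr rfl fun ξ _ => ?_
  rw [← pow_mul]
  congr 1
  have := hcon ξ
  rw [← count_roots] at this
  omega

theorem RatBase2.hb0 {a b : k[X]} (h : RatBase2 a b) : b ≠ 0 := by
  rintro rfl
  exact h.cb 0 0 (by simp)

theorem RatBase2.hd0 {a b : k[X]} (h : RatBase2 a b) : a ^ 2 - 4 * b ≠ 0 := by
  intro e
  exact h.cd 0 0 (by rw [e]; simp)

theorem RatBase2.dd {a b : k[X]} (h : RatBase2 a b) : (a ^ 2 - 4 * b).natDegree ≤ 4 :=
  dd_deg (m := 1) h.da h.db

theorem RatBase2.map (φ : k →+* M) {a b : k[X]} (h : RatBase2 a b) :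
    RatBase2 (a.map φ) (b.map φ) :=
  ⟨two_map φ h.two, by rw [natDegree_map]; exact h.da, by rw [natDegree_map]; exact h.db,
    nonsq_map φ h.two h.db h.cb, by
      rw [map_disc2]
      exact nonsq_map φ h.two h.dd h.cd⟩

end lemmas

section reps

variable {L L' : Type} [Field L] [Field L'] [Algebra L L'] [IsSepClosed L']

/-- The point given by a decomposition, over a small extension. -/
theorem small_rep {n : ℕ} (hn : Nat.Coprime n 6) {M : IntermediateField L L'} (hM : Small n M)
    (h2 : (2 : M) ≠ 0) {a b : M[X]} (da : a.natDegree ≤ 2) {p : M[X] × M[X]} (hp : Dec b p) :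
    ∃ (M' : IntermediateField L L') (h : M ≤ M'), Small n M' ∧
      RepPoly (a.map (IntermediateField.inclusion h : M →+* M'))
        (p.1.map (IntermediateField.inclusion h : M →+* M'),
          p.2.map (IntermediateField.inclusion h : M →+* M')) := by
  obtain ⟨-, du, dv, hu, hv⟩ := hp
  have h2' : (2 : L') ≠ 0 := two_map (algebraMap M L') h2
  have hG := quart_deg (a := a) (u := p.1) (v := p.2) hu
  obtain ⟨x, hx⟩ := quartic_root (N := L') h2 hG
  obtain ⟨M1, h01, hM1, hx1⟩ := small_step4 hn hM (x := x) (G := quart a p.1 p.2) (by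
    intro h
    rw [h, natDegree_zero] at hG
    omega) hG.le hx
  let φ1 : M →+* M1 := (IntermediateField.inclusion h01 : M →ₐ[L] M1)
  have hev : eval₂ φ1 (⟨x, hx1⟩ : M1) (quart a p.1 p.2) = 0 := by
    apply (algebraMap M1 L').injective
    rw [map_zero, hom_eval₂]
    exact hx
  set c : M1 := ⟨x, hx1⟩ with hc
  have hdisc := quart_eval φ1 hev
  have hc0 := quart_zero φ1 hev hv
  set Q : M1[X] := C (c ^ 2) * p.1.map φ1 + C c * a.map φ1 + p.2.map φ1 with hQ
  have hQd : Q.natDegree ≤ 2 := by
    refine (natDegree_add_le _ _).trans (max_le ((natDegree_add_le _ _).trans (max_le ?_ ?_)) ?_)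
    · exact (natDegree_C_mul_le _ _).trans (by rw [natDegree_map]; exact du)
    · exact (natDegree_C_mul_le _ _).trans (by rw [natDegree_map]; exact da)
    · rw [natDegree_map]; exact dv
  obtain ⟨M2, h12, hM2, δ, hδ⟩ := small_sqrt hn h2' hM1 (c * Q.coeff 2)
  obtain ⟨M3, h23, hM3, ε, hε⟩ := small_sqrt hn h2' hM2
    (IntermediateField.inclusion h12 (c * Q.coeff 0))
  let φ2 : M1 →+* M3 := (IntermediateField.inclusion (h12.trans h23) : M1 →ₐ[L] M3)
  have hφ : φ2.comp φ1 = (IntermediateField.inclusion (h01.trans (h12.trans h23)) : M →+* M3) := by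
    apply RingHom.ext
    intro t
    rfl
  have e23 : ∀ t : M1, IntermediateField.inclusion h23 (IntermediateField.inclusion h12 t) = φ2 t :=
    fun t => rfl
  refine ⟨M3, h01.trans (h12.trans h23), hM3, φ2 c, ?_⟩
  obtain ⟨w, hw⟩ := sq_of_disc (two_map φ2 (two_map φ1 h2)) (Q := Q.map φ2) (by
    rw [natDegree_map]; exact hQd) (by
      have h3 : disc2 (Q.map φ2) = φ2 (disc2 Q) := by
        unfold disc2
        rw [coeff_map, coeff_map, coeff_map, map_sub, map_pow, map_mul, map_mul, map_ofNat]
      rw [h3, hdisc, map_zero]) (c := φ2 c)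
    (δ := IntermediateField.inclusion h23 δ) (ε := ε) (by
      rw [← map_pow, hδ, coeff_map, ← map_mul φ2]
      rfl) (by
      rw [hε, coeff_map, ← map_mul φ2]
      rfl)
  refine ⟨w, (map_ne_zero_iff _ φ2.injective).2 hc0, ?_⟩
  rw [← hw, hQ]
  simp only [C_pow, Polynomial.map_mul, Polynomial.map_add, Polynomial.map_pow, map_C,
    Polynomial.map_map, hφ]

theorem small_reps {n : ℕ} (hn : Nat.Coprime n 6) : ∀ (N : ℕ) (M : IntermediateField L L'),
    Small n M → (2 : M) ≠ 0 → ∀ {a b : M[X]}, a.natDegree ≤ 2 → ∀ S : List (M[X] × M[X]),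
      S.length = N → (∀ p ∈ S, Dec b p) →
    ∃ (M' : IntermediateField L L') (h : M ≤ M'), Small n M' ∧ ∀ p ∈ S,
      RepPoly (a.map (IntermediateField.inclusion h : M →+* M'))
        (p.1.map (IntermediateField.inclusion h : M →+* M'),
          p.2.map (IntermediateField.inclusion h : M →+* M')) := by
  intro N
  induction N with
  | zero =>
    intro M hM _ a b _ S hS _
    rw [List.length_eq_zero_iff] at hS
    subst hS
    exact ⟨M, le_rfl, hM, fun p hp => absurd hp List.not_mem_nil⟩
  | succ N ih =>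
    intro M hM h2 a b da S hS hd
    obtain ⟨p, S', rfl⟩ : ∃ p S', S = p :: S' := by
      cases S with
      | nil => simp at hS
      | cons p S' => exact ⟨p, S', rfl⟩
    obtain ⟨M1, h1, hM1, hr1⟩ := small_rep hn hM h2 da (hd p List.mem_cons_self)
    let φ1 : M →+* M1 := (IntermediateField.inclusion h1 : M →ₐ[L] M1)
    obtain ⟨M2, h12, hM2, hr2⟩ := ih M1 hM1 (two_map φ1 h2) (a := a.map φ1) (b := b.map φ1)
      (by rw [natDegree_map]; exact da) (S'.map fun p => (p.1.map φ1, p.2.map φ1)) (by
        rw [List.length_map]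
        simpa using hS) (by
        intro p' hp'
        rw [List.mem_map] at hp'
        obtain ⟨p0, hp0, rfl⟩ := hp'
        obtain ⟨e1, e2, e3, e4, e5⟩ := hd p0 (List.mem_cons_of_mem _ hp0)
        have hdm : ∀ u : M[X], disc2 (u.map φ1) = φ1 (disc2 u) := by
          intro u
          unfold disc2
          rw [coeff_map, coeff_map, coeff_map, map_sub, map_pow, map_mul, map_mul, map_ofNat]
        refine ⟨?_, ?_, ?_, ?_, ?_⟩
        · show p0.1.map φ1 * p0.2.map φ1 = b.map φ1
          rw [← Polynomial.map_mul, e1]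
        · show (p0.1.map φ1).natDegree ≤ 2
          rw [natDegree_map]; exact e2
        · show (p0.2.map φ1).natDegree ≤ 2
          rw [natDegree_map]; exact e3
        · show disc2 (p0.1.map φ1) ≠ 0
          rw [hdm]; exact (map_ne_zero_iff _ φ1.injective).2 e4
        · show disc2 (p0.2.map φ1) ≠ 0
          rw [hdm]; exact (map_ne_zero_iff _ φ1.injective).2 e5)
    let φ2 : M1 →+* M2 := (IntermediateField.inclusion h12 : M1 →ₐ[L] M2)
    have hφ : φ2.comp φ1 = (IntermediateField.inclusion (h1.trans h12) : M →+* M2) := by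
      apply RingHom.ext
      intro t
      rfl
    refine ⟨M2, h1.trans h12, hM2, fun p' hp' => ?_⟩
    rw [List.mem_cons] at hp'
    rcases hp' with rfl | hp'
    · have := hr1.map φ2
      simp only [Polynomial.map_map] at this
      rw [hφ] at this
      exact this
    · have := hr2 _ (List.mem_map.2 ⟨p', hp', rfl⟩)
      simp only [Polynomial.map_map] at this
      have hφ' : (IntermediateField.inclusion h12 : M1 →+* M2).comp φ1 =
        (IntermediateField.inclusion (h1.trans h12) : M →+* M2) := hφ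
      rw [hφ'] at this
      exact this

end reps

end Pool.Agent.N181.P9
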